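import Mathlib

/-!
# Hadwiger's conjecture for direct products

The direct product `G × H` of two graphs has the vertex set `V(G) × V(H)`, and `(a, x)` is adjacent to
`(b, y)` if `a` is adjacent to `b` and `x` to `y` (this is the product of Hedetniemi's conjecture).  If `K_m`
is a minor of `G` and of `H`, where `H` is connected and not 2-colourable, then `K_m` is a minor of `G × H`.
Consequently, if a lower bound for the clique minor in terms of the chromatic number (for instance
Hadwiger's conjecture, or the weaker form with `K_{n-1}`) holds for `G` and for the components of `H`, then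
it holds for `G × H`.

Proof.  The product of a connected graph `G` with at least two vertices and a connected graph `H` which is
not 2-colourable is connected: between any two vertices of `H` there are walks of all large lengths.  Let
`A_i`, `C_i` be the branch sets of the minors in `G`, `H`.  If `A_i` has at least two vertices, we take
`B_i = A_i × V(H)`.  Let `S` be the union of the sets `A_i` with one element, `A_i = {a_i}`.  It is a clique.
If it has at most two vertices we take for these `i` the sets `B_i = {(a_i, g_i)}`, where the `g_i` are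
the ends of an edge of `H`.  If it has at least three vertices then it is connected and not 2-colourable
and we take `B_i = S × C_i` if `C_i` has at least two elements, and `B_i = A_i × C_i` otherwise.
-/

set_option autoImplicit false

namespace Pool.Agent.Results.MP_b47bfb_co.DirectProducts

/-- the direct product of two graphs -/
def dirProd {V W : Type} (G : SimpleGraph V) (H : SimpleGraph W) : SimpleGraph (V × W) where
  Adj a b := G.Adj a.1 b.1 ∧ H.Adj a.2 b.2
  symm := ⟨fun _ _ h => ⟨h.1.symm, h.2.symm⟩⟩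
  loopless := ⟨fun _ h => h.1.ne rfl⟩

/-- `K_m` is a minor of `G` -/
def CliqueMinor {V : Type} (G : SimpleGraph V) (m : ℕ) : Prop :=
  ∃ B : Fin m → Set V, (∀ i, (G.induce (B i)).Connected) ∧
    ∀ i j, i ≠ j → Disjoint (B i) (B j) ∧ ∃ u ∈ B i, ∃ v ∈ B j, G.Adj u v

section

variable {V W : Type} {G : SimpleGraph V} {H : SimpleGraph W}

/-! ## Connectedness of products -/

lemma prod_reach (n : ℕ) : ∀ {x y : V} {x' y' : W} (w : G.Walk x y) (w' : H.Walk x' y'), w.length = n →
    w'.length = n → (dirProd G H).Reachable (x, x') (y, y') := by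
  induction n with
  | zero =>
    intro x y x' y' w w' h h'
    cases w with
    | nil =>
      cases w' with
      | nil => exact SimpleGraph.Reachable.refl _
      | cons _ _ => simp at h'
    | cons _ _ => simp at h
  | succ n ih =>
    intro x y x' y' w w' h h'
    cases w with
    | nil => simp at h
    | cons ha w1 =>
      cases w' with
      | nil => simp at h'
      | cons ha' w1' =>
        simp only [SimpleGraph.Walk.length_cons, Nat.add_right_cancel_iff] at h h'
        refine SimpleGraph.Reachable.trans (SimpleGraph.Adj.reachable ?_) (ih w1 w1' h h')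
        exact ⟨ha, ha'⟩

lemma ext_walk {x y z : V} (w : G.Walk x y) (hz : G.Adj y z) (j : ℕ) :
    ∃ w' : G.Walk x y, w'.length = w.length + 2 * j := by
  induction j with
  | zero => exact ⟨w, rfl⟩
  | succ j ih =>
    obtain ⟨w', hw'⟩ := ih
    refine ⟨(w'.concat hz).concat hz.symm, ?_⟩
    simp only [SimpleGraph.Walk.length_concat, hw']
    ring

lemma odd_even (hH : H.Connected) (h2 : ¬ H.Colorable 2) (x y : W) (n : ℕ) :
    ∃ w : H.Walk x y, w.length % 2 = n % 2 := by
  rw [SimpleGraph.two_colorable_iff_forall_loop_even] at h2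
  push Not at h2
  obtain ⟨u, w0, hw0⟩ := h2
  rw [Nat.not_even_iff] at hw0
  obtain ⟨w1⟩ := hH.preconnected x u
  obtain ⟨w2⟩ := hH.preconnected u y
  by_cases h : (w1.append w2).length % 2 = n % 2
  · exact ⟨_, h⟩
  · refine ⟨w1.append (w0.append w2), ?_⟩
    simp only [SimpleGraph.Walk.length_append] at h ⊢
    omega

lemma conn_prod' (hG : G.Connected) (hn : Nontrivial V) (hH : H.Connected) (h2 : ¬ H.Colorable 2) :
    (dirProd G H).Connected := by
  obtain ⟨x0, x1, hx01⟩ := hn
  have hW := hH.nonempty
  have : Nonempty (V × W) := ⟨(x0, hW.some)⟩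
  refine SimpleGraph.Connected.mk ?_
  rintro ⟨x, x'⟩ ⟨y, y'⟩
  obtain ⟨w⟩ := hG.preconnected x y
  obtain ⟨w', hw'⟩ := odd_even hH h2 x' y' w.length
  -- a neighbour of `y` and a neighbour of `y'`
  have hy : ∃ z, G.Adj y z := by
    have : Nontrivial V := ⟨x0, x1, hx01⟩
    exact hG.preconnected.exists_adj_of_nontrivial y
  have hy' : ∃ z, H.Adj y' z := by
    by_contra hcon
    push Not at hcon
    apply h2
    have : ∀ z, z = y' := by
      intro z
      by_contra hz
      obtain ⟨q⟩ := hH.preconnected y' z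
      cases q with
      | nil => exact hz rfl
      | cons h _ => exact hcon _ h
    refine ⟨SimpleGraph.Coloring.mk (fun _ => (0 : Fin 2)) ?_⟩
    intro a b hab
    exact absurd ((this a).trans (this b).symm) hab.ne
  obtain ⟨z, hz⟩ := hy
  obtain ⟨z', hz'⟩ := hy'
  obtain ⟨q, hq⟩ := ext_walk w hz w'.length
  obtain ⟨q', hq'⟩ := ext_walk w' hz' ((w.length + w'.length) / 2)
  refine prod_reach q.length q q' rfl ?_
  omega

/-- the product of the subgraphs induced by `A` and `C` -/
def prodIso (G : SimpleGraph V) (H : SimpleGraph W) (A : Set V) (C : Set W) :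
    dirProd (G.induce A) (H.induce C) ≃g (dirProd G H).induce (A ×ˢ C) where
  toFun x := ⟨(x.1.1, x.2.1), x.1.2, x.2.2⟩
  invFun x := (⟨x.1.1, x.2.1⟩, ⟨x.1.2, x.2.2⟩)
  left_inv _ := rfl
  right_inv _ := rfl
  map_rel_iff' := Iff.rfl

/-- exchanging the factors -/
def swapIso (G : SimpleGraph V) (H : SimpleGraph W) : dirProd G H ≃g dirProd H G where
  toFun x := (x.2, x.1)
  invFun x := (x.2, x.1)
  left_inv _ := rfl
  right_inv _ := rfl
  map_rel_iff' := And.comm

lemma conn_set {A : Set V} {C : Set W} (hA : (G.induce A).Connected) (hn : A.Nontrivial)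
    (hC : (H.induce C).Connected) (h2 : ¬ (H.induce C).Colorable 2) :
    ((dirProd G H).induce (A ×ˢ C)).Connected := by
  have hn' : Nontrivial A := Set.nontrivial_coe_sort.2 hn
  exact (prodIso G H A C).connected_iff.1 (conn_prod' hA hn' hC h2)

lemma conn_set' {A : Set V} {C : Set W} (hA : (G.induce A).Connected) (h2 : ¬ (G.induce A).Colorable 2)
    (hC : (H.induce C).Connected) (hn : C.Nontrivial) :
    ((dirProd G H).induce (A ×ˢ C)).Connected := by
  have hn' : Nontrivial C := Set.nontrivial_coe_sort.2 hn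
  exact (prodIso G H A C).connected_iff.1
    ((swapIso (H.induce C) (G.induce A)).connected_iff.1 (conn_prod' hC hn' hA h2))

lemma conn_univ {A : Set V} (hA : (G.induce A).Connected) (hn : A.Nontrivial)
    (hH : H.Connected) (h2 : ¬ H.Colorable 2) :
    ((dirProd G H).induce (A ×ˢ Set.univ)).Connected := by
  refine conn_set hA hn ((SimpleGraph.induceUnivIso H).connected_iff.2 hH) fun h => h2 ?_
  exact h.of_hom (SimpleGraph.induceUnivIso H).symm.toHom

lemma conn_single (x : V) (y : W) (A : Set V) (C : Set W) (hA : A = {x}) (hC : C = {y}) :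
    ((dirProd G H).induce (A ×ˢ C)).Connected := by
  subst hA hC
  have : Nonempty (({x} : Set V) ×ˢ ({y} : Set W) : Set (V × W)) := ⟨⟨(x, y), rfl, rfl⟩⟩
  refine SimpleGraph.Connected.mk ?_
  rintro ⟨⟨a, a'⟩, h1, h2⟩ ⟨⟨b, b'⟩, h3, h4⟩
  simp only [Set.mem_singleton_iff] at h1 h2 h3 h4
  subst h1 h2 h3 h4
  exact SimpleGraph.Reachable.refl _

/-! ## Minors of products -/

theorem minor_prod (hH : H.Connected) (h2 : ¬ H.Colorable 2) {m : ℕ} (hG : CliqueMinor G m)
    (hHm : CliqueMinor H m) : CliqueMinor (dirProd G H) m := by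
  classical
  obtain ⟨A, hA1, hA2⟩ := hG
  obtain ⟨C, hC1, hC2⟩ := hHm
  -- an edge of `H`
  have hedge : ∃ g g' : W, H.Adj g g' := by
    by_contra hcon
    push Not at hcon
    exact h2 ⟨SimpleGraph.Coloring.mk (fun _ => (0 : Fin 2)) fun {a b} hab => absurd hab (hcon a b)⟩
  obtain ⟨g, g', hgg⟩ := hedge
  -- every vertex of `H` has a neighbour
  have hnb : ∀ y : W, ∃ z, H.Adj y z := by
    have : Nontrivial W := ⟨g, g', hgg.ne⟩
    exact fun y => hH.preconnected.exists_adj_of_nontrivial y
  have hne : ∀ i, (A i).Nonempty := fun i => Set.nonempty_coe_sort.1 (hA1 i).nonempty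
  choose a ha using hne
  have hsing : ∀ i, (A i).Subsingleton → A i = {a i} := fun i hi => hi.eq_singleton_of_mem (ha i)
  have hneC : ∀ i, (C i).Nonempty := fun i => Set.nonempty_coe_sort.1 (hC1 i).nonempty
  choose c hc using hneC
  have hsingC : ∀ i, (C i).Subsingleton → C i = {c i} := fun i hi => hi.eq_singleton_of_mem (hc i)
  -- the clique
  set S : Set V := {x | ∃ i, (A i).Subsingleton ∧ x = a i} with hS
  have hadj : ∀ i j, i ≠ j → (A i).Subsingleton → (A j).Subsingleton → G.Adj (a i) (a j) := by
    intro i j hij hi hj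
    obtain ⟨-, u, hu, v, hv, huv⟩ := hA2 i j hij
    rwa [hi hu (ha i), hj hv (ha j)] at huv
  have hdS : ∀ i, ¬ (A i).Subsingleton → Disjoint (A i) S := by
    intro i hi
    rw [Set.disjoint_left]
    rintro x hx ⟨j, hj, rfl⟩
    have hij : i ≠ j := fun h => hi (h ▸ hj)
    exact Set.disjoint_left.1 (hA2 i j hij).1 hx (ha j)
  -- from a big set to a set with a given first coordinate
  have hbig : ∀ (B : Fin m → Set (V × W)), (∀ i, ¬ (A i).Subsingleton → B i = A i ×ˢ Set.univ) →
      (∀ i, (A i).Subsingleton → (∃ y, (a i, y) ∈ B i) ∧ ∀ x ∈ B i, x.1 ∈ S) →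
      (∀ i, (A i).Subsingleton → ((dirProd G H).induce (B i)).Connected) →
      (∀ i j, i ≠ j → (A i).Subsingleton → (A j).Subsingleton → Disjoint (B i) (B j) ∧
        ∃ u ∈ B i, ∃ v ∈ B j, (dirProd G H).Adj u v) → CliqueMinor (dirProd G H) m := by
    intro B hB1 hB2 hB3 hB4
    -- one direction of the mixed case
    have hmix : ∀ i j, i ≠ j → ¬ (A i).Subsingleton → Disjoint (B i) (B j) ∧
        ∃ u ∈ B i, ∃ v ∈ B j, (dirProd G H).Adj u v := by
      intro i j hij hi
      obtain ⟨hdis, u, hu, v, hv, huv⟩ := hA2 i j hij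
      by_cases hj : (A j).Subsingleton
      · obtain ⟨⟨y, hy⟩, hy'⟩ := hB2 j hj
        refine ⟨?_, ?_⟩
        · rw [hB1 i hi, Set.disjoint_left]
          rintro x hx hx'
          exact Set.disjoint_left.1 (hdS i hi) hx.1 (hy' x hx')
        · obtain ⟨z, hz⟩ := hnb y
          refine ⟨(u, z), ?_, (a j, y), hy, ?_, hz.symm⟩
          · rw [hB1 i hi]
            exact ⟨hu, trivial⟩
          · rwa [hj hv (ha j)] at huv
      · refine ⟨?_, (u, g), ?_, (v, g'), ?_, huv, hgg⟩
        · rw [hB1 i hi, hB1 j hj, Set.disjoint_left]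
          rintro x hx hx'
          exact Set.disjoint_left.1 hdis hx.1 hx'.1
        · rw [hB1 i hi]
          exact ⟨hu, trivial⟩
        · rw [hB1 j hj]
          exact ⟨hv, trivial⟩
    refine ⟨B, fun i => ?_, fun i j hij => ?_⟩
    · by_cases hi : (A i).Subsingleton
      · exact hB3 i hi
      · rw [hB1 i hi]
        exact conn_univ (hA1 i) (Set.not_subsingleton_iff.1 hi) hH h2
    · by_cases hi : (A i).Subsingleton
      · by_cases hj : (A j).Subsingleton
        · exact hB4 i j hij hi hj
        · obtain ⟨h3, u, hu, v, hv, huv⟩ := hmix j i hij.symm hj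
          exact ⟨h3.symm, v, hv, u, hu, huv.symm⟩
      · exact hmix i j hij hi
  by_cases h2S : (G.induce S).Colorable 2
  · -- at most two single vertices
    obtain ⟨col⟩ := h2S
    let k : Fin m → W := fun i =>
      if h : (A i).Subsingleton then (if col ⟨a i, i, h, rfl⟩ = 0 then g else g') else g
    have hk : ∀ i j, i ≠ j → (A i).Subsingleton → (A j).Subsingleton → H.Adj (k i) (k j) := by
      intro i j hij hi hj
      have h3 : col ⟨a i, i, hi, rfl⟩ ≠ col ⟨a j, j, hj, rfl⟩ := col.valid (hadj i j hij hi hj)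
      simp only [k, hi, hj, dif_pos]
      split_ifs with h4 h5 h5
      · exact absurd (h4.trans h5.symm) h3
      · exact hgg
      · exact hgg.symm
      · exact absurd (by omega) h3
    refine hbig (fun i => if (A i).Subsingleton then A i ×ˢ {k i} else A i ×ˢ Set.univ) ?_ ?_ ?_ ?_
    · intro i hi
      simp only [if_neg hi]
    · intro i hi
      simp only [if_pos hi]
      refine ⟨⟨k i, ha i, rfl⟩, ?_⟩
      rintro x ⟨hx, -⟩
      exact ⟨i, hi, hi hx (ha i)⟩
    · intro i hi
      rw [if_pos hi]
      exact conn_single (a i) (k i) _ _ (hsing i hi) rfl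
    · intro i j hij hi hj
      simp only [if_pos hi, if_pos hj]
      refine ⟨?_, (a i, k i), ⟨ha i, rfl⟩, (a j, k j), ⟨ha j, rfl⟩, hadj i j hij hi hj,
        hk i j hij hi hj⟩
      rw [Set.disjoint_left]
      rintro x hx hx'
      exact Set.disjoint_left.1 (hA2 i j hij).1 hx.1 hx'.1
  · -- the clique is connected
    have hSc : (G.induce S).Connected := by
      have : Nonempty S := by
        by_contra hcon
        rw [not_nonempty_iff] at hcon
        exact h2S ⟨SimpleGraph.Coloring.mk (fun x => isEmptyElim x) fun {x} => isEmptyElim x⟩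
      refine SimpleGraph.Connected.mk ?_
      rintro ⟨x, i, hi, rfl⟩ ⟨y, j, hj, rfl⟩
      by_cases hij : i = j
      · subst hij
        exact SimpleGraph.Reachable.refl _
      · exact SimpleGraph.Adj.reachable (hadj i j hij hi hj)
    refine hbig (fun i => if (A i).Subsingleton then
      (if (C i).Subsingleton then A i ×ˢ C i else S ×ˢ C i) else A i ×ˢ Set.univ) ?_ ?_ ?_ ?_
    · intro i hi
      simp only [if_neg hi]
    · intro i hi
      simp only [if_pos hi]
      split_ifs with h
      · refine ⟨⟨c i, ha i, hc i⟩, ?_⟩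
        rintro x ⟨hx, -⟩
        exact ⟨i, hi, hi hx (ha i)⟩
      · refine ⟨⟨c i, ⟨i, hi, rfl⟩, hc i⟩, ?_⟩
        rintro x ⟨hx, -⟩
        exact hx
    · intro i hi
      rw [if_pos hi]
      by_cases h : (C i).Subsingleton
      · rw [if_pos h]
        exact conn_single (a i) (c i) _ _ (hsing i hi) (hsingC i h)
      · rw [if_neg h]
        exact conn_set' hSc h2S (hC1 i) (Set.not_subsingleton_iff.1 h)
    · intro i j hij hi hj
      simp only [if_pos hi, if_pos hj]
      obtain ⟨hdis, u, hu, v, hv, huv⟩ := hC2 i j hij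
      refine ⟨?_, (a i, u), ?_, (a j, v), ?_, hadj i j hij hi hj, huv⟩
      · rw [Set.disjoint_left]
        intro x hx hx'
        have h3 : x.2 ∈ C i := by split_ifs at hx <;> exact hx.2
        have h4 : x.2 ∈ C j := by split_ifs at hx' <;> exact hx'.2
        exact Set.disjoint_left.1 hdis h3 h4
      · split_ifs
        · exact ⟨ha i, hu⟩
        · exact ⟨⟨i, hi, rfl⟩, hu⟩
      · split_ifs
        · exact ⟨ha j, hv⟩
        · exact ⟨⟨j, hj, rfl⟩, hv⟩

/-! ## The product with a component -/

lemma CliqueMinor.of_component (c : H.ConnectedComponent) {m : ℕ}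
    (h : CliqueMinor (dirProd G c.toSimpleGraph) m) : CliqueMinor (dirProd G H) m := by
  obtain ⟨B, h1, h2⟩ := h
  let φ : V × c → V × W := fun x => (x.1, x.2.1)
  have hφ : Function.Injective φ := by
    rintro ⟨x, y⟩ ⟨x', y'⟩ hxy
    simp only [φ, Prod.mk.injEq] at hxy
    exact Prod.ext hxy.1 (Subtype.ext hxy.2)
  refine ⟨fun i => φ '' B i, fun i => ?_, fun i j hij => ?_⟩
  · let ψ : (dirProd G c.toSimpleGraph).induce (B i) →g (dirProd G H).induce (φ '' B i) :=
      { toFun := fun x => ⟨φ x.1, x.1, x.2, rfl⟩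
        map_rel' := fun {x y} hxy => hxy }
    refine (h1 i).map ψ ?_
    rintro ⟨-, x, hx, rfl⟩
    exact ⟨⟨x, hx⟩, rfl⟩
  · obtain ⟨h3, u, hu, v, hv, huv⟩ := h2 i j hij
    exact ⟨(Set.disjoint_image_iff hφ).2 h3, φ u, ⟨u, hu, rfl⟩, φ v, ⟨v, hv, rfl⟩, huv⟩

theorem bound_prod (f : ℕ → ℕ) (hf : ∀ n, f n ≤ n + 1)
    (hG : ∀ n, ¬ G.Colorable n → CliqueMinor G (f n))
    (hH : ∀ c : H.ConnectedComponent, ∀ n, ¬ c.toSimpleGraph.Colorable n →
      CliqueMinor c.toSimpleGraph (f n)) (n : ℕ) (hn : ¬ (dirProd G H).Colorable n) :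
    CliqueMinor (dirProd G H) (f n) := by
  have hGn : ¬ G.Colorable n := fun ⟨col⟩ => hn ⟨SimpleGraph.Coloring.mk (fun x => col x.1)
    fun {x y} hxy => col.valid hxy.1⟩
  have hHn : ¬ H.Colorable n := fun ⟨col⟩ => hn ⟨SimpleGraph.Coloring.mk (fun x => col x.2)
    fun {x y} hxy => col.valid hxy.2⟩
  rcases lt_or_ge n 2 with h2 | h2
  · -- a vertex or an edge
    have hfn := hf n
    have hne : Nonempty (V × W) := by
      by_contra hcon
      rw [not_nonempty_iff] at hcon
      exact hn ⟨SimpleGraph.Coloring.mk (fun x => isEmptyElim x) fun {x} => isEmptyElim x⟩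
    obtain ⟨x⟩ := hne
    have hx : ∀ y : V × W, ((dirProd G H).induce {y}).Connected := by
      intro y
      have : Nonempty ({y} : Set (V × W)) := ⟨⟨y, rfl⟩⟩
      refine SimpleGraph.Connected.mk ?_
      rintro ⟨a, ha⟩ ⟨b, hb⟩
      rw [Set.mem_singleton_iff] at ha hb
      subst ha hb
      exact SimpleGraph.Reachable.refl _
    rcases Nat.lt_or_ge (f n) 2 with h3 | h3
    · refine ⟨fun _ => {x}, fun i => hx x, fun i j hij => ?_⟩
      exact absurd (Fin.ext (by omega)) hij
    · have h4 : n = 1 := by omega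
      have h5 : f n = 2 := by omega
      have h6 : ∃ x y, (dirProd G H).Adj x y := by
        by_contra hcon
        push Not at hcon
        subst h4
        exact hn ⟨SimpleGraph.Coloring.mk (fun _ => (0 : Fin 1)) fun {a b} hab =>
          absurd hab (hcon a b)⟩
      obtain ⟨x, y, hxy⟩ := h6
      rw [h5]
      refine ⟨fun i => if i = 0 then {x} else {y}, fun i => ?_, fun i j hij => ?_⟩
      · beta_reduce
        by_cases hi : i = 0
        · rw [if_pos hi]
          exact hx x
        · rw [if_neg hi]
          exact hx y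
      · rcases (by omega : (i = 0 ∧ j = 1) ∨ (i = 1 ∧ j = 0)) with ⟨rfl, rfl⟩ | ⟨rfl, rfl⟩
        · simp only [if_true, one_ne_zero, if_false]
          exact ⟨Set.disjoint_singleton.2 hxy.ne, x, rfl, y, rfl, hxy⟩
        · simp only [if_true, one_ne_zero, if_false]
          exact ⟨Set.disjoint_singleton.2 hxy.ne.symm, y, rfl, x, rfl, hxy.symm⟩
  · rw [SimpleGraph.colorable_iff_forall_connectedComponent] at hHn
    push Not at hHn
    obtain ⟨c, hc⟩ := hHn
    exact CliqueMinor.of_component c (minor_prod c.connected_toSimpleGraph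
      (fun h => hc (h.mono h2)) (hG n hGn) (hH c n hc))

end

/-- **Main result.**  (1) If `K_m` is a minor of the graphs `G` and `H`, and `H` is connected and not
2-colourable, then `K_m` is a minor of the direct product `G × H`.  (2) Let `f n ≤ n + 1`.  If `G` and every
component of `H` has the property that `K_{f n}` is a minor of it whenever it is not `n`-colourable, then
`G × H` has this property. -/
theorem result :
    (∀ (V W : Type) (G : SimpleGraph V) (H : SimpleGraph W), H.Connected → ¬ H.Colorable 2 →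
      ∀ m : ℕ, CliqueMinor G m → CliqueMinor H m → CliqueMinor (dirProd G H) m) ∧
    (∀ f : ℕ → ℕ, (∀ n, f n ≤ n + 1) → ∀ (V W : Type) (G : SimpleGraph V) (H : SimpleGraph W),
      (∀ n, ¬ G.Colorable n → CliqueMinor G (f n)) →
      (∀ c : H.ConnectedComponent, ∀ n, ¬ c.toSimpleGraph.Colorable n →
        CliqueMinor c.toSimpleGraph (f n)) →
      ∀ n, ¬ (dirProd G H).Colorable n → CliqueMinor (dirProd G H) (f n)) :=
  ⟨fun _ _ _ _ hH h2 _ hG hHm => minor_prod hH h2 hG hHm,
    fun f hf _ _ _ _ hG hH => bound_prod f hf hG hH⟩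

end Pool.Agent.Results.MP_b47bfb_co.DirectProducts
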