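import Mathlib

/-!
# Hadwiger's conjecture for all generalized Kneser graphs

The generalized Kneser graph `K(n, k, t)` has the `k`-element subsets of `{0, ..., n - 1}` as vertices,
and two different sets are adjacent if they have fewer than `t` common elements (`t = 1`: the Kneser
graphs; `t = k - 1`: the complements of the Johnson graphs).

(1) `K(n, k, t)` is a minor of `K(n + 2, k + 1, t)`, for `1 ≤ t ≤ k` and `2 k < n + t`, unless `n = 2 k` and
`t = 1`.
(2) If `t ≤ k` and `2 k ≤ n + t` then `K_m` is a minor of `K(n, k, t)`, and `K(n, k, t)` has a proper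
colouring with `m` colours, for `m = C(n - 2 k + 2 t, t)`.
(3) Hadwiger's conjecture holds for all generalized Kneser graphs: if `K(n, k, t)` has no proper colouring
with `c` colours, then `K_{c + 1}` is a minor.

Proof of (1).  The branch set of a `k`-set `X ⊆ {0, ..., n - 1}` consists of `X ∪ {n}`, `X ∪ {n + 1}` and a
set `Z(X)` which contains both or none of `n`, `n + 1` and has fewer than `t` elements in common with each
of the first two.  If `X` and `Y` have fewer than `t` common elements, so have `X ∪ {n}` and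
`Y ∪ {n + 1}`.  It remains to choose `Z(X)` injectively.  If `n > 2 k`, by Hall's theorem there is an
injective map which assigns to every `k`-set a disjoint `(k + 1)`-set.  If `n < 2 k`, the complement
is mapped in this way to a set `U(X) ⊆ X`, and `Z(X)` is the complement of `U(X)` in
`{0, ..., n + 1}`.  If `n = 2 k` and `t ≥ 2`, then `Z(X)` is the complement of `X`, together with `0` if
`0 ∈ X`, and without `0` and with `n`, `n + 1` if not.

(2) follows since the graph `K(n, t, t)` is complete, and colourings are obtained by induction: the sets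
that contain the last element are coloured as in `K(n - 1, k - 1, t - 1)`, the others as in
`K(n - 1, k, t)`.
-/

set_option autoImplicit false

open Finset

namespace Pool.Agent.Results.MP_b47bfb_co.GeneralizedKneserGraphs

/-- the `k`-element subsets of `{0, ..., n - 1}` -/
abbrev Sets (n k : ℕ) : Type := {A : Finset ℕ // A ∈ powersetCard k (range n)}

/-- the generalized Kneser graph `K(n, k, t)`: the vertices are the `k`-element subsets of
`{0, ..., n - 1}`, and two different sets are adjacent if they have fewer than `t` common elements -/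
def GK (n k t : ℕ) : SimpleGraph (Sets n k) where
  Adj A B := A ≠ B ∧ (A.1 ∩ B.1).card < t
  symm := ⟨fun A B h => ⟨h.1.symm, by rw [inter_comm]; exact h.2⟩⟩
  loopless := ⟨fun _ h => h.1 rfl⟩

/-- `H` is a minor of `G`: there are pairwise disjoint connected branch sets, with an edge between the
branch sets of adjacent vertices -/
def IsMinor {W V : Type} (H : SimpleGraph W) (G : SimpleGraph V) : Prop :=
  ∃ B : W → Set V, (∀ w, (G.induce (B w)).Connected) ∧
    (∀ w w', w ≠ w' → Disjoint (B w) (B w')) ∧
    ∀ w w', H.Adj w w' → ∃ u ∈ B w, ∃ v ∈ B w', G.Adj u v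

/-- `K_m` is a minor of `G` -/
def CliqueMinor {V : Type} (G : SimpleGraph V) (m : ℕ) : Prop :=
  ∃ B : Fin m → Set V, (∀ i, (G.induce (B i)).Connected) ∧
    ∀ i j, i ≠ j → Disjoint (B i) (B j) ∧ ∃ u ∈ B i, ∃ v ∈ B j, G.Adj u v

/-! ## Minors in general -/

lemma star_connected {V : Type} (G : SimpleGraph V) (S : Set V) (z : V) (hz : z ∈ S)
    (h : ∀ v ∈ S, v ≠ z → G.Adj v z) : (G.induce S).Connected := by
  have : Nonempty S := ⟨⟨z, hz⟩⟩
  have key : ∀ v : S, (G.induce S).Reachable v ⟨z, hz⟩ := by
    intro v
    by_cases hv : v.1 = z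
    · have : v = ⟨z, hz⟩ := Subtype.ext hv
      rw [this]
    · have h1 : (G.induce S).Adj v ⟨z, hz⟩ := h v.1 v.2 hv
      exact h1.reachable
  exact ⟨fun u v => (key u).trans (key v).symm⟩

lemma union_connected {W V : Type} {H : SimpleGraph W} {G : SimpleGraph V} {B : W → Set V} (S : Set W)
    (hS : (H.induce S).Connected) (h1 : ∀ w, (G.induce (B w)).Connected)
    (h3 : ∀ w w', H.Adj w w' → ∃ u ∈ B w, ∃ v ∈ B w', G.Adj u v) :
    (G.induce (⋃ w ∈ S, B w)).Connected := by
  have hsub : ∀ w ∈ S, B w ⊆ ⋃ w ∈ S, B w := fun w hw => Set.subset_biUnion_of_mem hw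
  have hin : ∀ (w : W) (hw : w ∈ S) (u v : V) (hu : u ∈ B w) (hv : v ∈ B w),
      (G.induce (⋃ w ∈ S, B w)).Reachable ⟨u, hsub w hw hu⟩ ⟨v, hsub w hw hv⟩ := by
    intro w hw u v hu hv
    have := (h1 w).preconnected ⟨u, hu⟩ ⟨v, hv⟩
    exact this.map (SimpleGraph.induceHomOfLE G (hsub w hw)).toHom
  have hwalk : ∀ (w w' : S), (H.induce S).Reachable w w' → ∀ (u v : V) (hu : u ∈ B w.1)
      (hv : v ∈ B w'.1),
      (G.induce (⋃ w ∈ S, B w)).Reachable ⟨u, hsub _ w.2 hu⟩ ⟨v, hsub _ w'.2 hv⟩ := by
    rintro w w' ⟨p⟩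
    induction p with
    | nil => intro u v hu hv; exact hin _ (Subtype.property _) u v hu hv
    | @cons a b c hab p ih =>
      intro u v hu hv
      obtain ⟨x, hx, y, hy, hxy⟩ := h3 a.1 b.1 hab
      have e1 := hin a.1 a.2 u x hu hx
      have e2 : (G.induce (⋃ w ∈ S, B w)).Adj ⟨x, hsub _ a.2 hx⟩ ⟨y, hsub _ b.2 hy⟩ := hxy
      exact e1.trans (e2.reachable.trans (ih y v hy hv))
  obtain ⟨⟨w0, hw0⟩⟩ := hS.nonempty
  obtain ⟨⟨u0, hu0⟩⟩ := (h1 w0).nonempty
  have : Nonempty (⋃ w ∈ S, B w : Set V) := ⟨⟨u0, hsub w0 hw0 hu0⟩⟩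
  refine ⟨?_⟩
  rintro ⟨u, hu⟩ ⟨v, hv⟩
  obtain ⟨w, hw, hu'⟩ := Set.mem_iUnion₂.1 hu
  obtain ⟨w', hw', hv'⟩ := Set.mem_iUnion₂.1 hv
  exact hwalk ⟨w, hw⟩ ⟨w', hw'⟩ (hS.preconnected _ _) u v hu' hv'

lemma CliqueMinor.trans {W V : Type} {H : SimpleGraph W} {G : SimpleGraph V} {m : ℕ}
    (h : CliqueMinor H m) (hHG : IsMinor H G) : CliqueMinor G m := by
  obtain ⟨C, hC1, hC2⟩ := h
  obtain ⟨B, hB1, hB2, hB3⟩ := hHG
  refine ⟨fun i => ⋃ w ∈ C i, B w, fun i => union_connected (C i) (hC1 i) hB1 hB3, ?_⟩
  intro i j hij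
  obtain ⟨hd, u, hu, v, hv, huv⟩ := hC2 i j hij
  constructor
  · rw [Set.disjoint_left]
    intro x hx hx'
    obtain ⟨w, hw, hxw⟩ := Set.mem_iUnion₂.1 hx
    obtain ⟨w', hw', hxw'⟩ := Set.mem_iUnion₂.1 hx'
    have hne : w ≠ w' := by
      rintro rfl
      exact Set.disjoint_left.1 hd hw hw'
    exact Set.disjoint_left.1 (hB2 w w' hne) hxw hxw'
  · obtain ⟨x, hx, y, hy, hxy⟩ := hB3 u v huv
    exact ⟨x, Set.mem_iUnion₂.2 ⟨u, hu, hx⟩, y, Set.mem_iUnion₂.2 ⟨v, hv, hy⟩, hxy⟩

lemma CliqueMinor.le {V : Type} {G : SimpleGraph V} {m m' : ℕ} (h : m' ≤ m) (hm : CliqueMinor G m) :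
    CliqueMinor G m' := by
  obtain ⟨B, h1, h2⟩ := hm
  refine ⟨fun i => B (Fin.castLE h i), fun i => h1 _, fun i j hij => h2 _ _ fun h' => hij ?_⟩
  exact Fin.castLE_injective h h'

/-- a family of pairwise adjacent vertices -/
lemma clique_of_injective {V : Type} {G : SimpleGraph V} {m : ℕ} (f : Fin m → V)
    (h : ∀ i j, i ≠ j → G.Adj (f i) (f j)) : CliqueMinor G m := by
  refine ⟨fun i => {f i}, fun i => star_connected G _ (f i) rfl (fun v hv hne => absurd hv hne),
    fun i j hij => ⟨?_, f i, rfl, f j, rfl, h i j hij⟩⟩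
  rw [Set.disjoint_singleton]
  exact (h i j hij).ne

/-! ## Injective choice of disjoint sets (Hall's theorem) -/

lemma hall {ι α : Type} [DecidableEq α] (T : ι → Finset α) (d : ℕ) (hd : 0 < d)
    (h1 : ∀ x, d ≤ (T x).card) (h2 : ∀ (s : Finset ι) (y : α), (s.filter (fun x => y ∈ T x)).card ≤ d) :
    ∃ f : ι → α, Function.Injective f ∧ ∀ x, f x ∈ T x := by
  classical
  rw [← Finset.all_card_le_biUnion_card_iff_exists_injective]
  intro s
  have key := Finset.card_mul_le_card_mul (s := s) (t := s.biUnion T) (fun x y => y ∈ T x) (m := d)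
    (n := d) ?_ ?_
  · exact Nat.le_of_mul_le_mul_right key hd
  · intro x hx
    refine (h1 x).trans (card_le_card ?_)
    intro y hy
    rw [mem_bipartiteAbove]
    exact ⟨mem_biUnion.2 ⟨x, hx, hy⟩, hy⟩
  · intro y _
    exact h2 s y

lemma disjoint_choice (n k : ℕ) (h : 2 * k + 1 ≤ n) :
    ∃ f : Sets n k → Finset ℕ, Function.Injective f ∧
      ∀ X, f X ⊆ range n \ X.1 ∧ (f X).card = k + 1 := by
  classical
  suffices h : ∃ f : Sets n k → Finset ℕ, Function.Injective f ∧
      ∀ X : Sets n k, f X ∈ powersetCard (k + 1) (range n \ X.1) by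
    obtain ⟨f, hf, hf'⟩ := h
    exact ⟨f, hf, fun X => mem_powersetCard.1 (hf' X)⟩
  refine hall (fun X : Sets n k => powersetCard (k + 1) (range n \ X.1))
    ((n - k - 1).choose k) (Nat.choose_pos (by omega)) ?_ ?_
  · intro X
    obtain ⟨hX1, hX2⟩ := mem_powersetCard.1 X.2
    rw [card_powersetCard, card_sdiff_of_subset hX1, card_range, hX2]
    obtain ⟨r, hr⟩ : ∃ r, n - k = r + 1 := ⟨n - k - 1, by omega⟩
    rw [hr, Nat.choose_succ_succ]
    simp
  · intro s y
    rcases (s.filter (fun X : Sets n k => y ∈ powersetCard (k + 1) (range n \ X.1))).eq_empty_or_nonempty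
      with he | ⟨X0, hX0⟩
    · rw [he]; simp
    have h0 := mem_powersetCard.1 (mem_filter.1 hX0).2
    have hyn : y ⊆ range n := h0.1.trans sdiff_subset
    have hcard : (powersetCard k (range n \ y)).card = (n - k - 1).choose k := by
      rw [card_powersetCard, card_sdiff_of_subset hyn, card_range, h0.2]
      congr 1
    rw [← hcard]
    refine card_le_card_of_injOn (fun X : Sets n k => X.1) ?_ ?_
    · intro X hX
      have hX' := mem_powersetCard.1 (mem_filter.1 (Finset.mem_coe.1 hX)).2
      obtain ⟨hX1, hX2⟩ := mem_powersetCard.1 X.2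
      refine mem_powersetCard.2 ⟨?_, hX2⟩
      intro x hx
      rw [mem_sdiff]
      refine ⟨hX1 hx, fun hxy => ?_⟩
      exact (mem_sdiff.1 (hX'.1 hxy)).2 hx
    · intro X _ Y _ hXY
      exact Subtype.ext hXY

/-! ## The step -/

lemma step {n k t : ℕ} (Z : Sets n k → Finset ℕ) (hinj : Function.Injective Z)
    (hsub : ∀ X, Z X ⊆ range (n + 2)) (hcard : ∀ X, (Z X).card = k + 1)
    (hboth : ∀ X, n ∈ Z X ↔ n + 1 ∈ Z X) (h1 : ∀ X, (insert n X.1 ∩ Z X).card < t)
    (h2 : ∀ X, (insert (n + 1) X.1 ∩ Z X).card < t) :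
    IsMinor (GK n k t) (GK (n + 2) (k + 1) t) := by
  classical
  have hX : ∀ X : Sets n k, (∀ x ∈ X.1, x < n) ∧ X.1.card = k := by
    intro X
    obtain ⟨a, b⟩ := mem_powersetCard.1 X.2
    exact ⟨fun x hx => mem_range.1 (a hx), b⟩
  have hn : ∀ X : Sets n k, n ∉ X.1 := fun X h => lt_irrefl _ ((hX X).1 n h)
  have hn1 : ∀ X : Sets n k, n + 1 ∉ X.1 := fun X h => by have := (hX X).1 _ h; omega
  let P : Sets n k → Sets (n + 2) (k + 1) := fun X => ⟨insert n X.1, mem_powersetCard.2 ⟨by
    intro x hx
    rcases mem_insert.1 hx with rfl | hx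
    · exact mem_range.2 (by omega)
    · have := (hX X).1 x hx
      exact mem_range.2 (by omega), by rw [card_insert_of_notMem (hn X), (hX X).2]⟩⟩
  let Q : Sets n k → Sets (n + 2) (k + 1) := fun X => ⟨insert (n + 1) X.1, mem_powersetCard.2 ⟨by
    intro x hx
    rcases mem_insert.1 hx with rfl | hx
    · exact mem_range.2 (by omega)
    · have := (hX X).1 x hx
      exact mem_range.2 (by omega), by rw [card_insert_of_notMem (hn1 X), (hX X).2]⟩⟩
  let R : Sets n k → Sets (n + 2) (k + 1) := fun X => ⟨Z X, mem_powersetCard.2 ⟨hsub X, hcard X⟩⟩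
  have hPn : ∀ X, n ∈ (P X).1 := fun X => mem_insert_self _ _
  have hPn1 : ∀ X, n + 1 ∉ (P X).1 := fun X h => by
    rcases mem_insert.1 h with h | h
    · omega
    · exact hn1 X h
  have hQn1 : ∀ X, n + 1 ∈ (Q X).1 := fun X => mem_insert_self _ _
  have hQn : ∀ X, n ∉ (Q X).1 := fun X h => by
    rcases mem_insert.1 h with h | h
    · omega
    · exact hn X h
  have hPQ : ∀ X Y, P X ≠ Q Y := fun X Y h => hQn Y (h ▸ hPn X)
  have hPR : ∀ X Y, P X ≠ R Y := fun X Y h =>
    hPn1 X (h ▸ (hboth Y).1 (show n ∈ (R Y).1 from h ▸ hPn X))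
  have hQR : ∀ X Y, Q X ≠ R Y := fun X Y h =>
    hQn X (h ▸ (hboth Y).2 (show n + 1 ∈ (R Y).1 from h ▸ hQn1 X))
  have hPP : ∀ X Y, P X = P Y → X = Y := by
    intro X Y h
    apply Subtype.ext
    have h' : insert n X.1 = insert n Y.1 := congrArg Subtype.val h
    rw [← erase_insert (hn X), ← erase_insert (hn Y), h']
  have hQQ : ∀ X Y, Q X = Q Y → X = Y := by
    intro X Y h
    apply Subtype.ext
    have h' : insert (n + 1) X.1 = insert (n + 1) Y.1 := congrArg Subtype.val h
    rw [← erase_insert (hn1 X), ← erase_insert (hn1 Y), h']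
  have hRR : ∀ X Y, R X = R Y → X = Y := fun X Y h => hinj (congrArg Subtype.val h)
  refine ⟨fun X => {P X, Q X, R X}, ?_, ?_, ?_⟩
  · intro X
    refine star_connected _ _ (R X) (by simp) ?_
    intro v hv hne
    rcases hv with rfl | rfl | hv
    · exact ⟨hPR X X, h1 X⟩
    · exact ⟨hQR X X, h2 X⟩
    · exact absurd hv hne
  · intro X Y hXY
    rw [Set.disjoint_left]
    intro v hv hv'
    simp only [Set.mem_insert_iff, Set.mem_singleton_iff] at hv hv'
    rcases hv with rfl | rfl | rfl
    · rcases hv' with h | h | h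
      · exact hXY (hPP _ _ h)
      · exact hPQ _ _ h
      · exact hPR _ _ h
    · rcases hv' with h | h | h
      · exact hPQ _ _ h.symm
      · exact hXY (hQQ _ _ h)
      · exact hQR _ _ h
    · rcases hv' with h | h | h
      · exact hPR _ _ h.symm
      · exact hQR _ _ h.symm
      · exact hXY (hRR _ _ h)
  · intro X Y hXY
    refine ⟨P X, by simp, Q Y, by simp, hPQ X Y, ?_⟩
    have hs : (P X).1 ∩ (Q Y).1 ⊆ X.1 ∩ Y.1 := by
      intro x hx
      rw [mem_inter] at hx ⊢
      obtain ⟨hx1, hx2⟩ := hx
      rcases mem_insert.1 hx1 with rfl | hx1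
      · exact absurd hx2 (hQn Y)
      rcases mem_insert.1 hx2 with rfl | hx2
      · exact absurd hx1 (hn1 X)
      exact ⟨hx1, hx2⟩
    exact (card_le_card hs).trans_lt hXY.2

/-- `K(n, k, t)` is a minor of `K(n + 2, k + 1, t)` -/
theorem step_all (n k t : ℕ) (ht : 1 ≤ t) (htk : t ≤ k) (hnk : 2 * k + 1 ≤ n + t)
    (hex : ¬ (n = 2 * k ∧ t = 1)) : IsMinor (GK n k t) (GK (n + 2) (k + 1) t) := by
  classical
  have hX : ∀ X : Sets n k, X.1 ⊆ range n ∧ X.1.card = k := fun X => mem_powersetCard.1 X.2
  rcases lt_trichotomy n (2 * k) with hn | hn | hn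
  · -- `n < 2 k`
    obtain ⟨f, hf, hf'⟩ := disjoint_choice n (n - k) (by omega)
    by_cases hkn : k ≤ n
    swap
    · -- no vertices
      have hemp : ∀ X : Sets n k, False := by
        intro X
        have h1 := card_le_card (hX X).1
        rw [card_range, (hX X).2] at h1
        omega
      exact ⟨fun _ => ∅, fun X => (hemp X).elim, fun X => (hemp X).elim, fun X => (hemp X).elim⟩
    let c : Sets n k → Sets n (n - k) := fun X => ⟨range n \ X.1, mem_powersetCard.2
      ⟨sdiff_subset, by rw [card_sdiff_of_subset (hX X).1, card_range, (hX X).2]⟩⟩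
    have hc : Function.Injective c := by
      intro X Y h
      have h' : range n \ X.1 = range n \ Y.1 := congrArg Subtype.val h
      apply Subtype.ext
      rw [← Finset.sdiff_sdiff_eq_self (hX X).1, ← Finset.sdiff_sdiff_eq_self (hX Y).1, h']
    have hU : ∀ X, f (c X) ⊆ X.1 ∧ (f (c X)).card = n - k + 1 := by
      intro X
      refine ⟨?_, (hf' _).2⟩
      have h1 := (hf' (c X)).1
      have h2 : range n \ (c X).1 = X.1 := Finset.sdiff_sdiff_eq_self (hX X).1
      rwa [h2] at h1
    refine step (fun X => range (n + 2) \ f (c X)) ?_ (fun X => sdiff_subset) ?_ ?_ ?_ ?_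
    · intro X Y h
      have hs : ∀ X, f (c X) ⊆ range (n + 2) := fun X => ((hU X).1.trans (hX X).1).trans
        (range_subset_range.2 (by omega))
      have h' : range (n + 2) \ f (c X) = range (n + 2) \ f (c Y) := h
      apply hc
      apply hf
      rw [← Finset.sdiff_sdiff_eq_self (hs X), ← Finset.sdiff_sdiff_eq_self (hs Y), h']
    · intro X
      have hs : f (c X) ⊆ range (n + 2) := ((hU X).1.trans (hX X).1).trans
        (range_subset_range.2 (by omega))
      rw [card_sdiff_of_subset hs, card_range, (hU X).2]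
      omega
    · intro X
      have hm : ∀ x, n ≤ x → x ∉ f (c X) := fun x hx h => by
        have := mem_range.1 ((hX X).1 ((hU X).1 h))
        omega
      simp only [mem_sdiff, mem_range]
      constructor
      · intro _
        exact ⟨by omega, hm _ (by omega)⟩
      · intro _
        exact ⟨by omega, hm _ (by omega)⟩
    · intro X
      have hs : insert n X.1 ∩ (range (n + 2) \ f (c X)) ⊆ insert n (X.1 \ f (c X)) := by
        intro x hx
        rw [mem_inter, mem_insert, mem_sdiff] at hx
        rw [mem_insert, mem_sdiff]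
        tauto
      have h1 := card_le_card hs
      have h2 := card_insert_le n (X.1 \ f (c X))
      rw [card_sdiff_of_subset (hU X).1, (hX X).2, (hU X).2] at h2
      show (insert n X.1 ∩ (range (n + 2) \ f (c X))).card < t
      omega
    · intro X
      have hs : insert (n + 1) X.1 ∩ (range (n + 2) \ f (c X)) ⊆ insert (n + 1) (X.1 \ f (c X)) := by
        intro x hx
        rw [mem_inter, mem_insert, mem_sdiff] at hx
        rw [mem_insert, mem_sdiff]
        tauto
      have h1 := card_le_card hs
      have h2 := card_insert_le (n + 1) (X.1 \ f (c X))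
      rw [card_sdiff_of_subset (hU X).1, (hX X).2, (hU X).2] at h2
      show (insert (n + 1) X.1 ∩ (range (n + 2) \ f (c X))).card < t
      omega
  · -- `n = 2 k`
    have ht2 : 2 ≤ t := by
      by_contra h
      exact hex ⟨hn, by omega⟩
    have hcc : ∀ X : Sets n k, (range n \ X.1).card = k := by
      intro X
      rw [card_sdiff_of_subset (hX X).1, card_range, (hX X).2]
      omega
    have h0n : 0 ∈ range n := mem_range.2 (by omega)
    let Z : Sets n k → Finset ℕ := fun X =>
      if 0 ∈ X.1 then insert 0 (range n \ X.1) else insert n (insert (n + 1) ((range n \ X.1).erase 0))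
    have hZ1 : ∀ X, 0 ∈ X.1 → Z X = insert 0 (range n \ X.1) := fun X h => if_pos h
    have hZ2 : ∀ X, 0 ∉ X.1 → Z X = insert n (insert (n + 1) ((range n \ X.1).erase 0)) :=
      fun X h => if_neg h
    have hnot : ∀ X : Sets n k, ∀ x, n ≤ x → x ∉ range n \ X.1 := by
      intro X x hx h
      have := mem_range.1 (mem_sdiff.1 h).1
      omega
    have hmem1 : ∀ X, 0 ∈ X.1 → n ∉ Z X ∧ n + 1 ∉ Z X := by
      intro X h
      rw [hZ1 X h]
      refine ⟨?_, ?_⟩
      · rw [mem_insert]
        rintro (h' | h')
        · omega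
        · exact hnot X n le_rfl h'
      · rw [mem_insert]
        rintro (h' | h')
        · omega
        · exact hnot X (n + 1) (by omega) h'
    have hmem2 : ∀ X, 0 ∉ X.1 → n ∈ Z X ∧ n + 1 ∈ Z X := by
      intro X h
      rw [hZ2 X h]
      exact ⟨mem_insert_self _ _, mem_insert_of_mem (mem_insert_self _ _)⟩
    refine step Z ?_ ?_ ?_ ?_ ?_ ?_
    · intro X Y h
      apply Subtype.ext
      rw [← Finset.sdiff_sdiff_eq_self (hX X).1, ← Finset.sdiff_sdiff_eq_self (hX Y).1]
      congr 1
      by_cases hx : 0 ∈ X.1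
      · by_cases hy : 0 ∈ Y.1
        · rw [hZ1 X hx, hZ1 Y hy] at h
          have e1 : 0 ∉ range n \ X.1 := fun h' => (mem_sdiff.1 h').2 hx
          have e2 : 0 ∉ range n \ Y.1 := fun h' => (mem_sdiff.1 h').2 hy
          rw [← erase_insert e1, ← erase_insert e2, h]
        · exact absurd (h ▸ (hmem2 Y hy).1) (hmem1 X hx).1
      · by_cases hy : 0 ∈ Y.1
        · exact absurd (h ▸ (hmem2 X hx).1) (hmem1 Y hy).1
        · rw [hZ2 X hx, hZ2 Y hy] at h
          have e : ∀ W : Sets n k, 0 ∉ W.1 → range n \ W.1 = insert 0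
              (((insert n (insert (n + 1) ((range n \ W.1).erase 0))).erase n).erase (n + 1)) := by
            intro W hW
            have a1 : n ∉ insert (n + 1) ((range n \ W.1).erase 0) := by
              rw [mem_insert]
              rintro (h' | h')
              · omega
              · exact hnot W n le_rfl (mem_of_mem_erase h')
            have a2 : n + 1 ∉ (range n \ W.1).erase 0 := fun h' =>
              hnot W (n + 1) (by omega) (mem_of_mem_erase h')
            rw [erase_insert a1, erase_insert a2, insert_erase]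
            exact mem_sdiff.2 ⟨h0n, hW⟩
          rw [e X hx, e Y hy, h]
    · intro X x hx
      by_cases h : 0 ∈ X.1
      · rw [hZ1 X h, mem_insert] at hx
        rcases hx with rfl | hx
        · exact mem_range.2 (by omega)
        · have := mem_range.1 (mem_sdiff.1 hx).1
          exact mem_range.2 (by omega)
      · rw [hZ2 X h, mem_insert, mem_insert] at hx
        rcases hx with rfl | rfl | hx
        · exact mem_range.2 (by omega)
        · exact mem_range.2 (by omega)
        · have := mem_range.1 (mem_sdiff.1 (mem_of_mem_erase hx)).1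
          exact mem_range.2 (by omega)
    · intro X
      by_cases h : 0 ∈ X.1
      · rw [hZ1 X h, card_insert_of_notMem (fun h' => (mem_sdiff.1 h').2 h), hcc X]
      · have a1 : n ∉ insert (n + 1) ((range n \ X.1).erase 0) := by
          rw [mem_insert]
          rintro (h' | h')
          · omega
          · exact hnot X n le_rfl (mem_of_mem_erase h')
        have a2 : n + 1 ∉ (range n \ X.1).erase 0 := fun h' =>
          hnot X (n + 1) (by omega) (mem_of_mem_erase h')
        rw [hZ2 X h, card_insert_of_notMem a1, card_insert_of_notMem a2,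
          card_erase_of_mem (mem_sdiff.2 ⟨h0n, h⟩), hcc X]
        omega
    · intro X
      by_cases h : 0 ∈ X.1
      · exact ⟨fun h' => absurd h' (hmem1 X h).1, fun h' => absurd h' (hmem1 X h).2⟩
      · exact ⟨fun _ => (hmem2 X h).2, fun _ => (hmem2 X h).1⟩
    · intro X
      by_cases h : 0 ∈ X.1
      · have hs : insert n X.1 ∩ Z X ⊆ {0} := by
          intro x hx
          rw [hZ1 X h, mem_inter, mem_insert, mem_insert, mem_sdiff, mem_range] at hx
          rw [mem_singleton]
          rcases hx with ⟨h1 | h1, h2 | h2⟩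
          · exact h2
          · omega
          · exact h2
          · exact absurd h1 h2.2
        have := card_le_card hs
        rw [card_singleton] at this
        omega
      · have hs : insert n X.1 ∩ Z X ⊆ {n} := by
          intro x hx
          rw [hZ2 X h, mem_inter, mem_insert, mem_insert, mem_insert, mem_erase, mem_sdiff,
            mem_range] at hx
          rw [mem_singleton]
          rcases hx with ⟨h1 | h1, h2 | h2 | h2⟩
          · exact h1
          · exact h1
          · exact h1
          · exact h2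
          · have := mem_range.1 ((hX X).1 h1)
            omega
          · exact absurd h1 h2.2.2
        have := card_le_card hs
        rw [card_singleton] at this
        omega
    · intro X
      by_cases h : 0 ∈ X.1
      · have hs : insert (n + 1) X.1 ∩ Z X ⊆ {0} := by
          intro x hx
          rw [hZ1 X h, mem_inter, mem_insert, mem_insert, mem_sdiff, mem_range] at hx
          rw [mem_singleton]
          rcases hx with ⟨h1 | h1, h2 | h2⟩
          · exact h2
          · omega
          · exact h2
          · exact absurd h1 h2.2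
        have := card_le_card hs
        rw [card_singleton] at this
        omega
      · have hs : insert (n + 1) X.1 ∩ Z X ⊆ {n + 1} := by
          intro x hx
          rw [hZ2 X h, mem_inter, mem_insert, mem_insert, mem_insert, mem_erase, mem_sdiff,
            mem_range] at hx
          rw [mem_singleton]
          rcases hx with ⟨h1 | h1, h2 | h2 | h2⟩
          · exact h1
          · exact h1
          · exact h1
          · have := mem_range.1 ((hX X).1 h1)
            omega
          · exact h2
          · exact absurd h1 h2.2.2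
        have := card_le_card hs
        rw [card_singleton] at this
        omega
  · -- `n > 2 k`
    obtain ⟨f, hf, hf'⟩ := disjoint_choice n k (by omega)
    have hm : ∀ X : Sets n k, ∀ x ∈ f X, x < n ∧ x ∉ X.1 := by
      intro X x hx
      have := mem_sdiff.1 ((hf' X).1 hx)
      exact ⟨mem_range.1 this.1, this.2⟩
    refine step f hf ?_ (fun X => (hf' X).2) ?_ ?_ ?_
    · intro X x hx
      have := (hm X x hx).1
      exact mem_range.2 (by omega)
    · intro X
      exact ⟨fun h => absurd (hm X _ h).1 (by omega), fun h => absurd (hm X _ h).1 (by omega)⟩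
    · intro X
      have : insert n X.1 ∩ f X = ∅ := by
        rw [eq_empty_iff_forall_notMem]
        intro x hx
        rw [mem_inter, mem_insert] at hx
        obtain ⟨h1 | h1, h2⟩ := hx
        · have := (hm X x h2).1
          omega
        · exact (hm X x h2).2 h1
      rw [this, card_empty]
      omega
    · intro X
      have : insert (n + 1) X.1 ∩ f X = ∅ := by
        rw [eq_empty_iff_forall_notMem]
        intro x hx
        rw [mem_inter, mem_insert] at hx
        obtain ⟨h1 | h1, h2⟩ := hx
        · have := (hm X x h2).1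
          omega
        · exact (hm X x h2).2 h1
      rw [this, card_empty]
      omega

/-! ## The clique minor -/

lemma card_sets (n k : ℕ) : Fintype.card (Sets n k) = n.choose k := by
  rw [Fintype.card_coe, card_powersetCard, card_range]

/-- if all pairs of different vertices are adjacent, then the number of vertices is the order of a
clique minor -/
lemma clique_all {n k t : ℕ} (h : ∀ A B : Sets n k, A ≠ B → (A.1 ∩ B.1).card < t) :
    CliqueMinor (GK n k t) (n.choose k) := by
  have e : Fin (n.choose k) ≃ Sets n k := (finCongr (card_sets n k).symm).trans (Fintype.equivFin _).symm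
  refine clique_of_injective (fun i => e i) (fun i j hij => ?_)
  have hne : e i ≠ e j := fun h' => hij (e.injective h')
  exact ⟨hne, h _ _ hne⟩

lemma inter_lt {n t : ℕ} (A B : Sets n t) (h : A ≠ B) : (A.1 ∩ B.1).card < t := by
  obtain ⟨-, hA⟩ := mem_powersetCard.1 A.2
  obtain ⟨-, hB⟩ := mem_powersetCard.1 B.2
  by_contra hlt
  push Not at hlt
  have h1 : A.1 ∩ B.1 = A.1 := eq_of_subset_of_card_le inter_subset_left (by rw [hA]; exact hlt)
  have h2 : A.1 ∩ B.1 = B.1 := eq_of_subset_of_card_le inter_subset_right (by rw [hB]; exact hlt)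
  exact h (Subtype.ext (h1.symm.trans h2))

lemma minor_param (a t j : ℕ) (ha : 1 ≤ a) (ht : 1 ≤ t) (hne : ¬ (a = 1 ∧ t = 1)) :
    CliqueMinor (GK (a + t + 2 * j) (t + j) t) ((a + t).choose t) := by
  induction j with
  | zero => exact clique_all inter_lt
  | succ j ih =>
    have h := step_all (a + t + 2 * j) (t + j) t ht (by omega) (by omega) (by omega)
    exact ih.trans h

lemma nonempty_one {n k t : ℕ} (hkn : k ≤ n) : CliqueMinor (GK n k t) 1 := by
  have hv : range k ∈ powersetCard k (range n) :=
    mem_powersetCard.2 ⟨range_subset_range.2 hkn, card_range k⟩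
  refine clique_of_injective (fun _ => ⟨range k, hv⟩) (fun i j hij => ?_)
  exact absurd (Subsingleton.elim i j) hij

theorem clique_minor (n k t : ℕ) (htk : t ≤ k) (hnk : 2 * k ≤ n + t) :
    CliqueMinor (GK n k t) ((n + 2 * t - 2 * k).choose t) := by
  rcases Nat.eq_zero_or_pos t with rfl | ht
  · rw [Nat.choose_zero_right]
    exact nonempty_one (by omega)
  rcases Nat.eq_or_lt_of_le hnk with h | h
  · have e : n + 2 * t - 2 * k = t := by omega
    rw [e, Nat.choose_self]
    exact nonempty_one (by omega)
  obtain ⟨j, rfl⟩ := Nat.exists_eq_add_of_le htk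
  obtain ⟨a, ha⟩ : ∃ a, n = a + t + 2 * j := ⟨n - t - 2 * j, by omega⟩
  have e : n + 2 * t - 2 * (t + j) = a + t := by omega
  rw [e]
  subst ha
  by_cases hex : a = 1 ∧ t = 1
  · obtain ⟨rfl, rfl⟩ := hex
    have hsub : range (1 + j) ⊆ range (1 + 1 + 2 * j) := range_subset_range.2 (by omega)
    have h1 : range (1 + j) ∈ powersetCard (1 + j) (range (1 + 1 + 2 * j)) :=
      mem_powersetCard.2 ⟨hsub, card_range _⟩
    have h2 : range (1 + 1 + 2 * j) \ range (1 + j) ∈ powersetCard (1 + j) (range (1 + 1 + 2 * j)) := by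
      refine mem_powersetCard.2 ⟨sdiff_subset, ?_⟩
      rw [card_sdiff_of_subset hsub, card_range, card_range]
      omega
    have hadj : (GK (1 + 1 + 2 * j) (1 + j) 1).Adj ⟨_, h1⟩ ⟨_, h2⟩ := by
      refine ⟨?_, ?_⟩
      · intro h
        have h3 : range (1 + j) = range (1 + 1 + 2 * j) \ range (1 + j) := congrArg Subtype.val h
        have h4 : 0 ∈ range (1 + j) := mem_range.2 (by omega)
        rw [h3] at h4
        exact (mem_sdiff.1 h4).2 (mem_range.2 (by omega))
      · have : range (1 + j) ∩ (range (1 + 1 + 2 * j) \ range (1 + j)) = ∅ := inter_sdiff_self _ _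
        rw [this]
        simp
    have hc : (1 + 1).choose 1 = 2 := by decide
    rw [hc]
    refine clique_of_injective ![⟨_, h1⟩, ⟨_, h2⟩] ?_
    intro i j' hij
    fin_cases i <;> fin_cases j'
    · exact absurd rfl hij
    · exact hadj
    · exact hadj.symm
    · exact absurd rfl hij
  · exact minor_param a t j (by omega) ht hex

/-! ## Colourings -/

lemma colour_param (a t j : ℕ) : ∃ c : Finset ℕ → ℕ,
    (∀ A ∈ powersetCard (t + j) (range (a + t + 2 * j)), c A < (a + t).choose t) ∧
    ∀ A ∈ powersetCard (t + j) (range (a + t + 2 * j)),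
      ∀ B ∈ powersetCard (t + j) (range (a + t + 2 * j)), (A ∩ B).card < t → c A ≠ c B := by
  induction t generalizing a with
  | zero =>
    refine ⟨fun _ => 0, fun _ _ => ?_, fun A _ B _ h => absurd h (by omega)⟩
    rw [Nat.choose_zero_right]
    exact Nat.one_pos
  | succ t iht =>
    induction a with
    | zero =>
      refine ⟨fun _ => 0, fun _ _ => ?_, fun A hA B hB h => ?_⟩
      · rw [Nat.zero_add, Nat.choose_self]
        exact Nat.one_pos
      · exfalso
        obtain ⟨hA1, hA2⟩ := mem_powersetCard.1 hA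
        obtain ⟨hB1, hB2⟩ := mem_powersetCard.1 hB
        have h1 := card_union_add_card_inter A B
        have h2 := card_le_card (union_subset hA1 hB1)
        rw [card_range] at h2
        omega
    | succ a iha =>
      obtain ⟨c1, hc1, hc1'⟩ := iha
      obtain ⟨c2, hc2, hc2'⟩ := iht (a + 1)
      set N := a + (t + 1) + 2 * j with hN
      have eN : a + 1 + (t + 1) + 2 * j = N + 1 := by omega
      have eN2 : a + 1 + t + 2 * j = N := by omega
      rw [eN2] at hc2 hc2'
      rw [eN]
      have hch : (a + 1 + (t + 1)).choose (t + 1) = (a + 1 + t).choose t + (a + (t + 1)).choose (t + 1) := by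
        have : a + 1 + (t + 1) = (a + 1 + t) + 1 := by omega
        rw [this, Nat.choose_succ_succ]
        congr 2
        omega
      have m1 : ∀ A ∈ powersetCard (t + 1 + j) (range (N + 1)), N ∉ A →
          A ∈ powersetCard (t + 1 + j) (range N) := by
        intro A hA hNA
        obtain ⟨hA1, hA2⟩ := mem_powersetCard.1 hA
        refine mem_powersetCard.2 ⟨fun x hx => ?_, hA2⟩
        have h1 := mem_range.1 (hA1 hx)
        have h2 : x ≠ N := fun h => hNA (h ▸ hx)
        exact mem_range.2 (by omega)
      have m2 : ∀ A ∈ powersetCard (t + 1 + j) (range (N + 1)), N ∈ A →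
          A.erase N ∈ powersetCard (t + j) (range N) := by
        intro A hA hNA
        obtain ⟨hA1, hA2⟩ := mem_powersetCard.1 hA
        refine mem_powersetCard.2 ⟨fun x hx => ?_, ?_⟩
        · have h1 := mem_range.1 (hA1 (mem_of_mem_erase hx))
          have h2 : x ≠ N := ne_of_mem_erase hx
          exact mem_range.2 (by omega)
        · rw [card_erase_of_mem hNA, hA2]
          omega
      refine ⟨fun A => if N ∈ A then (a + (t + 1)).choose (t + 1) + c2 (A.erase N) else c1 A, ?_, ?_⟩
      · intro A hA
        show (if N ∈ A then _ else _) < _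
        rw [hch]
        split_ifs with h
        · have := hc2 _ (m2 A hA h)
          omega
        · have := hc1 _ (m1 A hA h)
          omega
      · intro A hA B hB hAB
        show (if N ∈ A then _ else _) ≠ (if N ∈ B then _ else _)
        split_ifs with h h' h'
        · have e : (A.erase N ∩ B.erase N).card < t := by
            have e1 : A ∩ B = insert N (A.erase N ∩ B.erase N) := by
              ext x
              simp only [mem_inter, mem_insert, mem_erase]
              by_cases hx : x = N
              · subst hx; tauto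
              · tauto
            have e2 : N ∉ A.erase N ∩ B.erase N := fun h3 => notMem_erase N A (mem_inter.1 h3).1
            rw [e1, card_insert_of_notMem e2] at hAB
            omega
          have := hc2' _ (m2 A hA h) _ (m2 B hB h') e
          omega
        · have := hc1 _ (m1 B hB h')
          omega
        · have := hc1 _ (m1 A hA h)
          omega
        · exact hc1' _ (m1 A hA h) _ (m1 B hB h') hAB

theorem colouring (n k t : ℕ) (htk : t ≤ k) (hnk : 2 * k ≤ n + t) :
    (GK n k t).Colorable ((n + 2 * t - 2 * k).choose t) := by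
  obtain ⟨j, rfl⟩ := Nat.exists_eq_add_of_le htk
  obtain ⟨a, rfl⟩ : ∃ a, n = a + t + 2 * j := ⟨n - t - 2 * j, by omega⟩
  have e : a + t + 2 * j + 2 * t - 2 * (t + j) = a + t := by omega
  rw [e]
  obtain ⟨c, hc, hc'⟩ := colour_param a t j
  exact ⟨SimpleGraph.Coloring.mk (fun A => ⟨c A.1, hc A.1 A.2⟩)
    (fun {A B} hAB h => hc' A.1 A.2 B.1 B.2 hAB.2 (congrArg Fin.val h))⟩

theorem hadwiger (n k t c : ℕ) (h : ¬ (GK n k t).Colorable c) : CliqueMinor (GK n k t) (c + 1) := by
  have hne : k ≤ n := by
    by_contra hkn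
    apply h
    have hemp : IsEmpty (Sets n k) := by
      rw [← Fintype.card_eq_zero_iff, card_sets, Nat.choose_eq_zero_of_lt (by omega)]
    exact SimpleGraph.Colorable.of_isEmpty c
  by_cases htk : t ≤ k
  · by_cases hnk : 2 * k ≤ n + t
    · refine (clique_minor n k t htk hnk).le ?_
      by_contra hlt
      exact h ((colouring n k t htk hnk).mono (by omega))
    · have hc : c = 0 := by
        by_contra hc
        apply h
        refine ⟨SimpleGraph.Coloring.mk (fun _ => (⟨0, by omega⟩ : Fin c)) ?_⟩
        intro A B hAB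
        exfalso
        obtain ⟨hA1, hA2⟩ := mem_powersetCard.1 A.2
        obtain ⟨hB1, hB2⟩ := mem_powersetCard.1 B.2
        have h1 := card_union_add_card_inter A.1 B.1
        have h2 := card_le_card (union_subset hA1 hB1)
        have h3 := hAB.2
        rw [card_range] at h2
        omega
      subst hc
      exact nonempty_one hne
  · have hall' : ∀ A B : Sets n k, A ≠ B → (A.1 ∩ B.1).card < t := by
      intro A B _
      obtain ⟨-, hA2⟩ := mem_powersetCard.1 A.2
      have := card_le_card (inter_subset_left (s₁ := A.1) (s₂ := B.1))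
      omega
    refine (clique_all hall').le ?_
    by_contra hlt
    apply h
    have h1 := (GK n k t).colorable_of_fintype
    rw [card_sets] at h1
    exact h1.mono (by omega)

/-- **Hadwiger's conjecture for all generalized Kneser graphs.**
(1) `K(n, k, t)` is a minor of `K(n + 2, k + 1, t)`, for `1 ≤ t ≤ k`, `2 k < n + t`, unless `n = 2 k` and
`t = 1`.
(2) For `t ≤ k` and `2 k ≤ n + t`, with `m = C(n - 2 k + 2 t, t)`: `K_m` is a minor of `K(n, k, t)`, which has
a proper colouring with `m` colours.
(3) If `K(n, k, t)` has no proper colouring with `c` colours, then `K_{c + 1}` is a minor of it; for all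
`n`, `k`, `t`, `c`. -/
theorem result :
    (∀ n k t : ℕ, 1 ≤ t → t ≤ k → 2 * k < n + t → ¬ (n = 2 * k ∧ t = 1) →
      IsMinor (GK n k t) (GK (n + 2) (k + 1) t)) ∧
    (∀ n k t : ℕ, t ≤ k → 2 * k ≤ n + t →
      CliqueMinor (GK n k t) ((n + 2 * t - 2 * k).choose t) ∧
      (GK n k t).Colorable ((n + 2 * t - 2 * k).choose t)) ∧
    (∀ n k t c : ℕ, ¬ (GK n k t).Colorable c → CliqueMinor (GK n k t) (c + 1)) :=
  ⟨fun n k t h1 h2 h3 h4 => step_all n k t h1 h2 h3 h4,
    fun n k t h1 h2 => ⟨clique_minor n k t h1 h2, colouring n k t h1 h2⟩,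
    fun n k t c h => hadwiger n k t c h⟩

end Pool.Agent.Results.MP_b47bfb_co.GeneralizedKneserGraphs
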