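import Mathlib

/-!
# Hadwiger's conjecture for all generalized `q`-Kneser graphs

Let `V` be a vector space of dimension `n` over the field `F` with `q` elements. The generalized
`q`-Kneser graph `K_q(n, k, t)` has the `k`-dimensional subspaces of `V` as vertices, and two different
subspaces are adjacent if their intersection has dimension less than `t` (`t = 1`: the `q`-Kneser
graphs; `t = k - 1`: the complements of the Grassmann graphs).

(1) `K_q(n, k, t)` is a minor of `K_q(n + 1, k + 1, t)`, for `t ≥ 1` and `2 k < n`; dually,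
`K_q(n, k, t + 1)` is a minor of `K_q(n + 1, k, t)` for `n < 2 k ≤ n + t`.
(2) If `t ≤ k ≤ n` and `2 k ≤ n + t` then `K_m` is a minor of `K_q(n, k, t)`, and `K_q(n, k, t)` has a
proper colouring with `m` colours, where `m` is the number of subspaces of dimension
`min (t, n + t - 2 k)` of `F ^ (n + t - k)`.
(3) Hadwiger's conjecture holds for all generalized `q`-Kneser graphs.

Proof of (1).  Let `V = U × F`. The branch set of a `k`-dimensional subspace `S` of `U` consists of ALL
`(k + 1)`-dimensional subspaces `T` of `V` with `T ∩ U = S`, and of one further vertex `L(S)`, a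
`(k + 1)`-dimensional subspace of `U` with `S ∩ L(S) = 0`. Since `T ∩ L(S) = S ∩ L(S) = 0`, the vertex
`L(S)` is adjacent to all the other ones. If `S ≠ S'` and `dim (S ∩ S') < t`, take `u ∈ U` outside
`S + S'` (a proper subspace, as `2 k < n`); then `S + ⟨(0, 1)⟩` and `S' + ⟨(u, 1)⟩` intersect exactly in
`S ∩ S'`. It remains to choose `L(S)` injectively. By Hall's theorem this is possible, since the
relation `S ∩ L = 0` is invariant under the general linear group, which is transitive on the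
subspaces of given dimension, and since `U` has at least as many subspaces of dimension `k + 1` as of
dimension `k` (a second double counting, with an injection from the hyperplanes of `L` into the
spaces that contain `S` with codimension one, which comes from an injective linear map of the dual
space of `L` into a complement of `S`).

(2) For `2 k ≤ n` the chain of minors (1) ends with the complete graph `K_q(n - k + t, t, t)`; a colour
of a subspace `S` is a `t`-dimensional subspace of the intersection of `S` with a fixed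
`(n - k + t)`-dimensional space. The case `n < 2 k` follows by the duality
`K_q(n, k, t) ≅ K_q(n, n - k, n + t - 2 k)`.
-/

set_option autoImplicit false

open Module

namespace Pool.Agent.Results.MP_b47bfb_co.QKneserGraphs

/-- the `k`-dimensional subspaces of `V` -/
abbrev Gr (F V : Type) [Field F] [AddCommGroup V] [Module F V] (k : ℕ) : Type :=
  {S : Submodule F V // finrank F S = k}

/-- the generalized `q`-Kneser graph of the vector space `V`: the vertices are the `k`-dimensional
subspaces, and two different subspaces are adjacent if the dimension of their intersection is less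
than `t` -/
def QK (F V : Type) [Field F] [AddCommGroup V] [Module F V] (k t : ℕ) : SimpleGraph (Gr F V k) where
  Adj S T := S ≠ T ∧ finrank F (S.1 ⊓ T.1 : Submodule F V) < t
  symm := ⟨fun S T h => ⟨h.1.symm, by rw [inf_comm]; exact h.2⟩⟩
  loopless := ⟨fun _ h => h.1 rfl⟩

/-- `H` is a minor of `G`: there are pairwise disjoint connected branch sets, with an edge between the
branch sets of adjacent vertices -/
def IsMinor {W V : Type} (H : SimpleGraph W) (G : SimpleGraph V) : Prop :=
  ∃ B : W → Set V, (∀ w, (G.induce (B w)).Connected) ∧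
    (∀ w w', w ≠ w' → Disjoint (B w) (B w')) ∧
    ∀ w w', H.Adj w w' → ∃ u ∈ B w, ∃ v ∈ B w', G.Adj u v

/-- `K_m` is a minor of `G` -/
def CliqueMinor {V : Type} (G : SimpleGraph V) (m : ℕ) : Prop :=
  ∃ B : Fin m → Set V, (∀ i, (G.induce (B i)).Connected) ∧
    ∀ i j, i ≠ j → Disjoint (B i) (B j) ∧ ∃ u ∈ B i, ∃ v ∈ B j, G.Adj u v

/-! ## Minors in general -/

lemma star_connected {V : Type} (G : SimpleGraph V) (S : Set V) (z : V) (hz : z ∈ S)
    (h : ∀ v ∈ S, v ≠ z → G.Adj v z) : (G.induce S).Connected := by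
  have : Nonempty S := ⟨⟨z, hz⟩⟩
  have key : ∀ v : S, (G.induce S).Reachable v ⟨z, hz⟩ := by
    intro v
    by_cases hv : v.1 = z
    · have : v = ⟨z, hz⟩ := Subtype.ext hv
      rw [this]
    · have h1 : (G.induce S).Adj v ⟨z, hz⟩ := h v.1 v.2 hv
      exact h1.reachable
  exact ⟨fun u v => (key u).trans (key v).symm⟩

lemma union_connected {W V : Type} {H : SimpleGraph W} {G : SimpleGraph V} {B : W → Set V} (S : Set W)
    (hS : (H.induce S).Connected) (h1 : ∀ w, (G.induce (B w)).Connected)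
    (h3 : ∀ w w', H.Adj w w' → ∃ u ∈ B w, ∃ v ∈ B w', G.Adj u v) :
    (G.induce (⋃ w ∈ S, B w)).Connected := by
  have hsub : ∀ w ∈ S, B w ⊆ ⋃ w ∈ S, B w := fun w hw => Set.subset_biUnion_of_mem hw
  have hin : ∀ (w : W) (hw : w ∈ S) (u v : V) (hu : u ∈ B w) (hv : v ∈ B w),
      (G.induce (⋃ w ∈ S, B w)).Reachable ⟨u, hsub w hw hu⟩ ⟨v, hsub w hw hv⟩ := by
    intro w hw u v hu hv
    have := (h1 w).preconnected ⟨u, hu⟩ ⟨v, hv⟩
    exact this.map (SimpleGraph.induceHomOfLE G (hsub w hw)).toHom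
  have hwalk : ∀ (w w' : S), (H.induce S).Reachable w w' → ∀ (u v : V) (hu : u ∈ B w.1)
      (hv : v ∈ B w'.1),
      (G.induce (⋃ w ∈ S, B w)).Reachable ⟨u, hsub _ w.2 hu⟩ ⟨v, hsub _ w'.2 hv⟩ := by
    rintro w w' ⟨p⟩
    induction p with
    | nil => intro u v hu hv; exact hin _ (Subtype.property _) u v hu hv
    | @cons a b c hab p ih =>
      intro u v hu hv
      obtain ⟨x, hx, y, hy, hxy⟩ := h3 a.1 b.1 hab
      have e1 := hin a.1 a.2 u x hu hx
      have e2 : (G.induce (⋃ w ∈ S, B w)).Adj ⟨x, hsub _ a.2 hx⟩ ⟨y, hsub _ b.2 hy⟩ := hxy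
      exact e1.trans (e2.reachable.trans (ih y v hy hv))
  obtain ⟨⟨w0, hw0⟩⟩ := hS.nonempty
  obtain ⟨⟨u0, hu0⟩⟩ := (h1 w0).nonempty
  have : Nonempty (⋃ w ∈ S, B w : Set V) := ⟨⟨u0, hsub w0 hw0 hu0⟩⟩
  refine ⟨?_⟩
  rintro ⟨u, hu⟩ ⟨v, hv⟩
  obtain ⟨w, hw, hu'⟩ := Set.mem_iUnion₂.1 hu
  obtain ⟨w', hw', hv'⟩ := Set.mem_iUnion₂.1 hv
  exact hwalk ⟨w, hw⟩ ⟨w', hw'⟩ (hS.preconnected _ _) u v hu' hv'

lemma CliqueMinor.trans {W V : Type} {H : SimpleGraph W} {G : SimpleGraph V} {m : ℕ}
    (h : CliqueMinor H m) (hHG : IsMinor H G) : CliqueMinor G m := by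
  obtain ⟨C, hC1, hC2⟩ := h
  obtain ⟨B, hB1, hB2, hB3⟩ := hHG
  refine ⟨fun i => ⋃ w ∈ C i, B w, fun i => union_connected (C i) (hC1 i) hB1 hB3, ?_⟩
  intro i j hij
  obtain ⟨hd, u, hu, v, hv, huv⟩ := hC2 i j hij
  constructor
  · rw [Set.disjoint_left]
    intro x hx hx'
    obtain ⟨w, hw, hxw⟩ := Set.mem_iUnion₂.1 hx
    obtain ⟨w', hw', hxw'⟩ := Set.mem_iUnion₂.1 hx'
    have hne : w ≠ w' := by
      rintro rfl
      exact Set.disjoint_left.1 hd hw hw'
    exact Set.disjoint_left.1 (hB2 w w' hne) hxw hxw'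
  · obtain ⟨x, hx, y, hy, hxy⟩ := hB3 u v huv
    exact ⟨x, Set.mem_iUnion₂.2 ⟨u, hu, hx⟩, y, Set.mem_iUnion₂.2 ⟨v, hv, hy⟩, hxy⟩

lemma CliqueMinor.le {V : Type} {G : SimpleGraph V} {m m' : ℕ} (h : m' ≤ m) (hm : CliqueMinor G m) :
    CliqueMinor G m' := by
  obtain ⟨B, h1, h2⟩ := hm
  refine ⟨fun i => B (Fin.castLE h i), fun i => h1 _, fun i j hij => h2 _ _ fun h' => hij ?_⟩
  exact Fin.castLE_injective h h'

/-- a family of pairwise adjacent vertices -/
lemma clique_of_injective {V : Type} {G : SimpleGraph V} {m : ℕ} (f : Fin m → V)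
    (h : ∀ i j, i ≠ j → G.Adj (f i) (f j)) : CliqueMinor G m := by
  refine ⟨fun i => {f i}, fun i => star_connected G _ (f i) rfl (fun v hv hne => absurd hv hne),
    fun i j hij => ⟨?_, f i, rfl, f j, rfl, h i j hij⟩⟩
  rw [Set.disjoint_singleton]
  exact (h i j hij).ne

lemma IsMinor.of_iso {W V : Type} {H : SimpleGraph W} {G : SimpleGraph V} (e : H ≃g G) :
    IsMinor H G := by
  refine ⟨fun w => {e w}, fun w => star_connected G _ (e w) rfl (fun v hv hne => absurd hv hne),
    fun w w' h => ?_, fun w w' h => ⟨e w, rfl, e w', rfl, e.map_rel_iff.2 h⟩⟩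
  rw [Set.disjoint_singleton]
  exact fun h' => h (e.injective h')

/-! ## Injective choice for biregular relations (Hall's theorem) -/

open Finset in
lemma hall {X Y : Type} [Fintype X] [Fintype Y] (R : X → Y → Prop) (a b : ℕ) (ha : 0 < a)
    (hX : ∀ x, Nat.card {y // R x y} = a) (hY : ∀ y, Nat.card {x // R x y} = b)
    (hXY : Fintype.card X ≤ Fintype.card Y) :
    ∃ f : X → Y, Function.Injective f ∧ ∀ x, R x (f x) := by
  classical
  have hX' : ∀ x, (univ.filter (fun y => R x y)).card = a := by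
    intro x
    rw [← hX x, Nat.card_eq_fintype_card, Fintype.card_subtype]
  have hY' : ∀ y, (univ.filter (fun x => R x y)).card = b := by
    intro y
    rw [← hY y, Nat.card_eq_fintype_card, Fintype.card_subtype]
  by_cases hne : Nonempty X
  swap
  · rw [not_nonempty_iff] at hne
    exact ⟨fun x => (hne.false x).elim, fun x => (hne.false x).elim, fun x => (hne.false x).elim⟩
  have hpos : 0 < Fintype.card X := Fintype.card_pos
  have hdc := Finset.sum_card_bipartiteAbove_eq_sum_card_bipartiteBelow (s := (univ : Finset X))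
    (t := (univ : Finset Y)) R
  have e1 : ∀ x ∈ (univ : Finset X), ((univ : Finset Y).bipartiteAbove R x).card = a :=
    fun x _ => hX' x
  have e2 : ∀ y ∈ (univ : Finset Y), ((univ : Finset X).bipartiteBelow R y).card = b :=
    fun y _ => hY' y
  rw [Finset.sum_congr rfl e1, Finset.sum_congr rfl e2, Finset.sum_const, Finset.sum_const,
    card_univ, card_univ, smul_eq_mul, smul_eq_mul] at hdc
  have hba : b ≤ a := by
    by_contra hlt
    rw [not_le] at hlt
    have h1 : Fintype.card X * a < Fintype.card X * b := Nat.mul_lt_mul_of_pos_left hlt hpos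
    have h2 : Fintype.card X * b ≤ Fintype.card Y * b := Nat.mul_le_mul_right b hXY
    omega
  have := (Finset.all_card_le_biUnion_card_iff_exists_injective
    (fun x : X => (univ : Finset Y).filter (fun y => R x y))).1 ?_
  · obtain ⟨f, hf, hf'⟩ := this
    exact ⟨f, hf, fun x => (mem_filter.1 (hf' x)).2⟩
  intro s
  have key := Finset.card_mul_le_card_mul (s := s)
    (t := s.biUnion (fun x => (univ : Finset Y).filter (fun y => R x y)))
    (fun x y => R x y) (m := a) (n := a) ?_ ?_
  · exact Nat.le_of_mul_le_mul_right key ha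
  · intro x hx
    rw [← hX' x]
    refine card_le_card ?_
    intro y hy
    rw [mem_bipartiteAbove]
    exact ⟨mem_biUnion.2 ⟨x, hx, hy⟩, (mem_filter.1 hy).2⟩
  · intro y _
    refine le_trans ?_ hba
    rw [← hY' y]
    refine card_le_card ?_
    intro x hx
    rw [mem_bipartiteBelow] at hx
    exact mem_filter.2 ⟨mem_univ _, hx.2⟩

/-! ## Subspaces -/

section Subspaces

variable {F V : Type} [Field F] [AddCommGroup V] [Module F V]

lemma finrank_map_inj {W : Type} [AddCommGroup W] [Module F W] (f : V →ₗ[F] W)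
    (hf : Function.Injective f) (p : Submodule F V) : finrank F (p.map f) = finrank F p :=
  (LinearEquiv.finrank_eq (Submodule.equivMapOfInjective f hf p)).symm

lemma exists_sub [FiniteDimensional F V] (W : Submodule F V) (t : ℕ) (h : t ≤ finrank F W) :
    ∃ c : Submodule F V, c ≤ W ∧ finrank F c = t := by
  let b := Module.finBasis F W
  let f : Fin t → V := fun i => (b (Fin.castLE h i) : V)
  have hf : LinearIndependent F f := by
    have h1 := b.linearIndependent.comp (Fin.castLE h) (Fin.castLE_injective h)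
    exact h1.map' W.subtype (Submodule.ker_subtype W)
  refine ⟨Submodule.span F (Set.range f), ?_, ?_⟩
  · rw [Submodule.span_le]
    rintro x ⟨i, rfl⟩
    exact (b (Fin.castLE h i)).2
  · rw [finrank_span_eq_card hf, Fintype.card_fin]

lemma exists_equiv [FiniteDimensional F V] (S S' : Submodule F V)
    (h : finrank F S = finrank F S') : ∃ g : V ≃ₗ[F] V, S.map (g : V →ₗ[F] V) = S' := by
  obtain ⟨C, hC⟩ := Submodule.exists_isCompl S
  obtain ⟨C', hC'⟩ := Submodule.exists_isCompl S'
  have h1 := Submodule.finrank_add_eq_of_isCompl hC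
  have h2 := Submodule.finrank_add_eq_of_isCompl hC'
  have h3 : finrank F C = finrank F C' := by omega
  let e1 : S ≃ₗ[F] S' := LinearEquiv.ofFinrankEq _ _ h
  let e2 : C ≃ₗ[F] C' := LinearEquiv.ofFinrankEq _ _ h3
  let g : V ≃ₗ[F] V := (Submodule.prodEquivOfIsCompl S C hC).symm.trans
    ((LinearEquiv.prodCongr e1 e2).trans (Submodule.prodEquivOfIsCompl S' C' hC'))
  refine ⟨g, Submodule.eq_of_le_of_finrank_eq ?_ ?_⟩
  · rintro x ⟨y, hy, rfl⟩
    have hg : g y = (e1 ⟨y, hy⟩ : V) := by
      have h4 : (Submodule.prodEquivOfIsCompl S C hC).symm y = (⟨y, hy⟩, 0) := by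
        rw [LinearEquiv.symm_apply_eq]
        simp
      simp [g, h4]
    rw [LinearEquiv.coe_coe, hg]
    exact (e1 ⟨y, hy⟩).2
  · rw [LinearEquiv.finrank_map_eq g S, h]

instance [Finite V] (k : ℕ) : Finite (Gr F V k) := Subtype.finite

/-- a linear automorphism permutes the subspaces of given dimension -/
def grEquiv (g : V ≃ₗ[F] V) (b : ℕ) : Gr F V b ≃ Gr F V b where
  toFun L := ⟨L.1.map (g : V →ₗ[F] V), by rw [LinearEquiv.finrank_map_eq g L.1, L.2]⟩
  invFun L := ⟨L.1.map (g.symm : V →ₗ[F] V), by rw [LinearEquiv.finrank_map_eq g.symm L.1, L.2]⟩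
  left_inv L := by
    apply Subtype.ext
    show (L.1.map (g : V →ₗ[F] V)).map (g.symm : V →ₗ[F] V) = L.1
    rw [← Submodule.map_comp]
    simp
  right_inv L := by
    apply Subtype.ext
    show (L.1.map (g.symm : V →ₗ[F] V)).map (g : V →ₗ[F] V) = L.1
    rw [← Submodule.map_comp]
    simp

lemma card_const [FiniteDimensional F V] (R : Submodule F V → Submodule F V → Prop)
    (hR : ∀ (g : V ≃ₗ[F] V) (A B : Submodule F V), R A B ↔
      R (A.map (g : V →ₗ[F] V)) (B.map (g : V →ₗ[F] V))) (b : ℕ)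
    (S S' : Submodule F V) (h : finrank F S = finrank F S') :
    Nat.card {L : Gr F V b // R S L.1} = Nat.card {L : Gr F V b // R S' L.1} := by
  obtain ⟨g, hg⟩ := exists_equiv S S' h
  refine Nat.card_congr ((grEquiv g b).subtypeEquiv ?_)
  intro L
  rw [hR g S L.1, hg]
  rfl

lemma disjoint_map_iff (g : V ≃ₗ[F] V) (A B : Submodule F V) :
    A ⊓ B = ⊥ ↔ A.map (g : V →ₗ[F] V) ⊓ B.map (g : V →ₗ[F] V) = ⊥ := by
  rw [← Submodule.map_inf _ g.injective]
  constructor
  · intro h
    rw [h, Submodule.map_bot]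
  · intro h
    exact (Submodule.map_eq_bot_iff (p := A ⊓ B) (e := g)).1 h

lemma le_map_iff (g : V ≃ₗ[F] V) (A B : Submodule F V) :
    A ≤ B ↔ A.map (g : V →ₗ[F] V) ≤ B.map (g : V →ₗ[F] V) :=
  (Submodule.map_le_map_iff_of_injective g.injective A B).symm

/-- The number of the `a`-dimensional subspaces of an `(a + 1)`-dimensional subspace is at most the
number of the `(a + 1)`-dimensional spaces which contain an `a`-dimensional subspace, if
`2 a + 1 ≤ dim V`. -/
lemma below_le_above [FiniteDimensional F V] [Finite V] (a : ℕ) (h : 2 * a + 1 ≤ finrank F V)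
    (S L : Submodule F V) (hS : finrank F S = a) (hL : finrank F L = a + 1) :
    Nat.card {T : Gr F V a // T.1 ≤ L} ≤ Nat.card {M : Gr F V (a + 1) // S ≤ M.1} := by
  obtain ⟨C, hC⟩ := Submodule.exists_isCompl S
  have h1 := Submodule.finrank_add_eq_of_isCompl hC
  have h2 : finrank F (Dual F L) ≤ finrank F C := by
    rw [Subspace.dual_finrank_eq, hL]
    omega
  obtain ⟨j, hj⟩ := finrank_le_iff_exists_linearMap.1 h2
  let J : Dual F L →ₗ[F] V := C.subtype.comp j
  have hJ : Function.Injective J := C.injective_subtype.comp hj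
  have hJC : ∀ p : Submodule F (Dual F L), p.map J ≤ C := by
    rintro p x ⟨y, -, rfl⟩
    exact (j y).2
  let φ : Submodule F V → Submodule F V := fun T =>
    (T.comap L.subtype).dualAnnihilator.map J
  have hφ : ∀ T ≤ L, finrank F T = a → finrank F (φ T) = 1 := by
    intro T hT hTa
    have e1 : finrank F (T.comap L.subtype) = a := by
      rw [(Submodule.comapSubtypeEquivOfLe hT).finrank_eq, hTa]
    have e2 := Subspace.finrank_add_finrank_dualAnnihilator_eq (T.comap L.subtype)
    have e3 := finrank_map_inj J hJ (T.comap L.subtype).dualAnnihilator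
    show finrank F ((T.comap L.subtype).dualAnnihilator.map J) = 1
    omega
  have hd : ∀ p ≤ C, S ⊓ p = ⊥ := fun p hp => by
    rw [← le_bot_iff]
    exact (inf_le_inf_left S hp).trans hC.inf_eq_bot.le
  refine Nat.card_le_card_of_injective (fun T : {T : Gr F V a // T.1 ≤ L} =>
    (⟨⟨φ T.1.1 ⊔ S, ?_⟩, le_sup_right⟩ : {M : Gr F V (a + 1) // S ≤ M.1})) ?_
  · have e1 := hφ T.1.1 T.2 T.1.2
    have e2 := Submodule.finrank_sup_add_finrank_inf_eq (φ T.1.1) S
    rw [inf_comm, hd _ (hJC _), finrank_bot] at e2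
    omega
  · intro T T' hTT'
    have e0 : φ T.1.1 ⊔ S = φ T'.1.1 ⊔ S := congrArg (fun x => x.1.1) hTT'
    have e1 : ∀ p ≤ C, (p ⊔ S) ⊓ C = p := fun p hp => by
      rw [sup_inf_assoc_of_le S hp, hC.inf_eq_bot, sup_bot_eq]
    have e2 : φ T.1.1 = φ T'.1.1 := by
      have a1 := e1 (φ T.1.1) (hJC _)
      have a2 := e1 (φ T'.1.1) (hJC _)
      rw [e0] at a1
      exact a1.symm.trans a2
    have e3 := Submodule.map_injective_of_injective hJ e2
    have e4 := Subspace.dualAnnihilator_inj.1 e3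
    apply Subtype.ext
    apply Subtype.ext
    have e5 : ∀ T ≤ L, (T.comap L.subtype).map L.subtype = T := fun T hT => by
      rw [Submodule.map_comap_subtype, inf_eq_right.2 hT]
    rw [← e5 _ T.2, ← e5 _ T'.2, e4]

open Finset in
/-- `|Gr a| ≤ |Gr (a + 1)|` if `2 a + 1 ≤ dim V` -/
lemma card_le_succ [FiniteDimensional F V] [Finite V] (a : ℕ) (h : 2 * a + 1 ≤ finrank F V) :
    Nat.card (Gr F V a) ≤ Nat.card (Gr F V (a + 1)) := by
  classical
  obtain ⟨S0, -, hS0⟩ := exists_sub (⊤ : Submodule F V) a (by rw [finrank_top]; omega)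
  obtain ⟨L0, -, hL0⟩ := exists_sub (⊤ : Submodule F V) (a + 1) (by rw [finrank_top]; omega)
  have := Fintype.ofFinite (Gr F V a)
  have := Fintype.ofFinite (Gr F V (a + 1))
  set α := Nat.card {M : Gr F V (a + 1) // S0 ≤ M.1} with hα
  set β := Nat.card {T : Gr F V a // T.1 ≤ L0} with hβ
  have hβα : β ≤ α := below_le_above a h S0 L0 hS0 hL0
  have hβ0 : 0 < β := by
    obtain ⟨T, hT, hTa⟩ := exists_sub L0 a (by omega)
    have : Nonempty {T : Gr F V a // T.1 ≤ L0} := ⟨⟨⟨T, hTa⟩, hT⟩⟩
    exact Nat.card_pos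
  have hX : ∀ S : Gr F V a, Nat.card {M : Gr F V (a + 1) // S.1 ≤ M.1} = α := fun S =>
    card_const (fun A B => A ≤ B) le_map_iff (a + 1) _ _ (S.2.trans hS0.symm)
  have hY : ∀ L : Gr F V (a + 1), Nat.card {T : Gr F V a // T.1 ≤ L.1} = β := fun L =>
    card_const (fun A B => B ≤ A) (fun g A B => le_map_iff g B A) a _ _ (L.2.trans hL0.symm)
  have hdc := Finset.sum_card_bipartiteAbove_eq_sum_card_bipartiteBelow
    (s := (univ : Finset (Gr F V a))) (t := (univ : Finset (Gr F V (a + 1))))
    (fun S L => S.1 ≤ L.1)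
  have e1 : ∀ x ∈ (univ : Finset (Gr F V a)), ((univ : Finset (Gr F V (a + 1))).bipartiteAbove
      (fun S L => S.1 ≤ L.1) x).card = α := fun x _ => by
    rw [← hX x, Nat.card_eq_fintype_card, Fintype.card_subtype]
    rfl
  have e2 : ∀ y ∈ (univ : Finset (Gr F V (a + 1))), ((univ : Finset (Gr F V a)).bipartiteBelow
      (fun S L => S.1 ≤ L.1) y).card = β := fun y _ => by
    rw [← hY y, Nat.card_eq_fintype_card, Fintype.card_subtype]
    rfl
  rw [Finset.sum_congr rfl e1, Finset.sum_congr rfl e2, Finset.sum_const, Finset.sum_const,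
    card_univ, card_univ, smul_eq_mul, smul_eq_mul] at hdc
  rw [Nat.card_eq_fintype_card, Nat.card_eq_fintype_card]
  by_contra hlt
  rw [not_le] at hlt
  have h1 : Fintype.card (Gr F V (a + 1)) * β < Fintype.card (Gr F V a) * β :=
    Nat.mul_lt_mul_of_pos_right hlt hβ0
  have h2 : Fintype.card (Gr F V a) * β ≤ Fintype.card (Gr F V a) * α :=
    Nat.mul_le_mul_left _ hβα
  omega

/-- an injective choice of an `(a + 1)`-dimensional subspace which meets the given `a`-dimensional
subspace trivially -/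
lemma disjoint_choice [FiniteDimensional F V] [Finite V] (a : ℕ) (h : 2 * a + 1 ≤ finrank F V) :
    ∃ f : Gr F V a → Gr F V (a + 1), Function.Injective f ∧ ∀ S, S.1 ⊓ (f S).1 = ⊥ := by
  classical
  have := Fintype.ofFinite (Gr F V a)
  have := Fintype.ofFinite (Gr F V (a + 1))
  obtain ⟨S0, -, hS0⟩ := exists_sub (⊤ : Submodule F V) a (by rw [finrank_top]; omega)
  obtain ⟨L0, -, hL0⟩ := exists_sub (⊤ : Submodule F V) (a + 1) (by rw [finrank_top]; omega)
  refine hall (fun (S : Gr F V a) (L : Gr F V (a + 1)) => S.1 ⊓ L.1 = ⊥)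
    (Nat.card {M : Gr F V (a + 1) // S0 ⊓ M.1 = ⊥}) (Nat.card {T : Gr F V a // T.1 ⊓ L0 = ⊥})
    ?_ ?_ ?_ ?_
  · obtain ⟨C, hC⟩ := Submodule.exists_isCompl S0
    have h1 := Submodule.finrank_add_eq_of_isCompl hC
    obtain ⟨M, hM, hMa⟩ := exists_sub C (a + 1) (by omega)
    have : Nonempty {M : Gr F V (a + 1) // S0 ⊓ M.1 = ⊥} := ⟨⟨⟨M, hMa⟩, by
      rw [← le_bot_iff]
      exact (inf_le_inf_left S0 hM).trans hC.inf_eq_bot.le⟩⟩
    exact Nat.card_pos
  · exact fun S => card_const (fun A B => A ⊓ B = ⊥) disjoint_map_iff (a + 1) _ _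
      (S.2.trans hS0.symm)
  · exact fun L => card_const (fun A B => B ⊓ A = ⊥) (fun g A B => disjoint_map_iff g B A) a _ _
      (L.2.trans hL0.symm)
  · rw [← Nat.card_eq_fintype_card, ← Nat.card_eq_fintype_card]
    exact card_le_succ a h

/-! ## The step: a minor in dimension one higher -/

/-- the subspace spanned by `S × 0` and `(u, 1)` -/
def ext (S : Submodule F V) (u : V) : Submodule F (V × F) :=
  S.map (LinearMap.inl F V F) ⊔ Submodule.span F {(u, (1 : F))}

lemma mem_ext {S : Submodule F V} {u : V} {x : V × F} :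
    x ∈ ext S u ↔ x.1 - x.2 • u ∈ S := by
  constructor
  · intro hx
    obtain ⟨y, hy, z, hz, rfl⟩ := Submodule.mem_sup.1 hx
    obtain ⟨s, hs, rfl⟩ := hy
    obtain ⟨c, rfl⟩ := Submodule.mem_span_singleton.1 hz
    simpa using hs
  · intro hx
    refine Submodule.mem_sup.2 ⟨(x.1 - x.2 • u, 0), ⟨_, hx, rfl⟩, x.2 • (u, 1),
      Submodule.smul_mem _ _ (Submodule.mem_span_singleton_self _), ?_⟩
    ext <;> simp

lemma comap_ext (S : Submodule F V) (u : V) : (ext S u).comap (LinearMap.inl F V F) = S := by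
  ext x
  rw [Submodule.mem_comap, mem_ext]
  simp

lemma finrank_ext [FiniteDimensional F V] (S : Submodule F V) (u : V) :
    finrank F (ext S u) = finrank F S + 1 := by
  have h1 := Submodule.finrank_sup_add_finrank_inf_eq (S.map (LinearMap.inl F V F))
    (Submodule.span F {(u, (1 : F))})
  have h2 : S.map (LinearMap.inl F V F) ⊓ Submodule.span F {(u, (1 : F))} = ⊥ := by
    rw [eq_bot_iff]
    rintro x ⟨hx1, hx2⟩
    obtain ⟨s, -, rfl⟩ := hx1
    obtain ⟨c, hc⟩ := Submodule.mem_span_singleton.1 hx2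
    have h3 := congrArg Prod.snd hc
    simp only [Prod.smul_mk, smul_eq_mul, mul_one, LinearMap.inl_apply] at h3
    rw [Submodule.mem_bot, ← hc, h3, zero_smul]
  rw [h2, finrank_bot, finrank_span_singleton (by simp), finrank_map_inj _ LinearMap.inl_injective]
    at h1
  exact h1

/-- the intersection of the subspaces spanned by `S`, `(0, 1)` and by `S'`, `(u, 1)` -/
lemma inf_ext (S S' : Submodule F V) (u : V) (hu : u ∉ S ⊔ S') :
    ext S 0 ⊓ ext S' u = (S ⊓ S').map (LinearMap.inl F V F) := by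
  ext ⟨x, c⟩
  rw [Submodule.mem_inf, mem_ext, mem_ext, Submodule.mem_map]
  simp only [smul_zero, sub_zero]
  constructor
  · rintro ⟨h1, h2⟩
    have hc : c = 0 := by
      by_contra hc
      apply hu
      have h3 : c • u ∈ S ⊔ S' := by
        have h4 : c • u = x - (x - c • u) := by abel
        rw [h4]
        exact Submodule.sub_mem _ (Submodule.mem_sup_left h1) (Submodule.mem_sup_right h2)
      have h5 := Submodule.smul_mem _ c⁻¹ h3
      rwa [smul_smul, inv_mul_cancel₀ hc, one_smul] at h5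
    subst hc
    rw [zero_smul, sub_zero] at h2
    exact ⟨x, ⟨h1, h2⟩, rfl⟩
  · rintro ⟨y, ⟨h1, h2⟩, h3⟩
    have h4 : y = x := congrArg Prod.fst h3
    have h5 : (0 : F) = c := congrArg Prod.snd h3
    subst h4 h5
    exact ⟨h1, by simpa using h2⟩

theorem step [FiniteDimensional F V] [Finite V] (a t : ℕ) (ht : 1 ≤ t)
    (h : 2 * a + 1 ≤ finrank F V) : IsMinor (QK F V a t) (QK F (V × F) (a + 1) t) := by
  classical
  obtain ⟨f, hf, hf'⟩ := disjoint_choice (F := F) (V := V) a h
  let ι : V →ₗ[F] V × F := LinearMap.inl F V F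
  have hι : Function.Injective ι := LinearMap.inl_injective
  let L : Gr F V a → Gr F (V × F) (a + 1) := fun S =>
    ⟨(f S).1.map ι, by rw [finrank_map_inj ι hι, (f S).2]⟩
  have hL : ∀ S, (L S).1.comap ι = (f S).1 := fun S =>
    Submodule.comap_map_eq_of_injective hι _
  let B : Gr F V a → Set (Gr F (V × F) (a + 1)) := fun S =>
    {T | T.1.comap ι = S.1 ∨ T = L S}
  have hLS : ∀ S S' : Gr F V a, (L S).1.comap ι ≠ S'.1 := by
    intro S S' h'
    rw [hL S] at h'
    have h1 := (f S).2
    have h2 := S'.2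
    rw [h'] at h1
    omega
  refine ⟨B, ?_, ?_, ?_⟩
  · intro S
    refine star_connected _ _ (L S) (Or.inr rfl) ?_
    rintro T (hT | hT) hne
    · refine ⟨hne, ?_⟩
      have h1 : T.1 ⊓ (L S).1 = ⊥ := by
        rw [eq_bot_iff]
        rintro x ⟨hx1, ⟨y, hy, rfl⟩⟩
        have h2 : y ∈ S.1 ⊓ (f S).1 := ⟨by rw [← hT]; exact hx1, hy⟩
        rw [hf' S, Submodule.mem_bot] at h2
        rw [h2, map_zero]
        exact Submodule.zero_mem _
      show finrank F (T.1 ⊓ (L S).1 : Submodule F (V × F)) < t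
      rw [h1, finrank_bot]
      omega
    · exact absurd hT hne
  · intro S S' hSS'
    rw [Set.disjoint_left]
    rintro T (hT | hT) (hT' | hT')
    · exact hSS' (Subtype.ext (hT.symm.trans hT'))
    · rw [hT'] at hT
      exact hLS _ _ hT
    · rw [hT] at hT'
      exact hLS _ _ hT'
    · apply hSS'
      apply hf
      apply Subtype.ext
      rw [← hL S, ← hL S', ← hT, ← hT']
  · intro S S' hSS'
    obtain ⟨u, hu⟩ : ∃ u, u ∉ S.1 ⊔ S'.1 := by
      by_contra hcon
      push Not at hcon
      have h1 : S.1 ⊔ S'.1 = ⊤ := by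
        rw [eq_top_iff]
        intro x _
        exact hcon x
      have h2 := Submodule.finrank_sup_add_finrank_inf_eq S.1 S'.1
      rw [h1, finrank_top, S.2, S'.2] at h2
      omega
    refine ⟨⟨ext S.1 0, by rw [finrank_ext, S.2]⟩, Or.inl (comap_ext _ _),
      ⟨ext S'.1 u, by rw [finrank_ext, S'.2]⟩, Or.inl (comap_ext _ _), ?_, ?_⟩
    · intro h'
      apply hSS'.1
      apply Subtype.ext
      have h1 : ext S.1 0 = ext S'.1 u := congrArg Subtype.val h'
      rw [← comap_ext S.1 0, ← comap_ext S'.1 u, h1]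
    · show finrank F (ext S.1 0 ⊓ ext S'.1 u : Submodule F (V × F)) < t
      rw [inf_ext _ _ _ hu, finrank_map_inj _ LinearMap.inl_injective]
      exact hSS'.2

/-- isomorphic vector spaces have isomorphic graphs -/
def isoOfEquiv {W : Type} [AddCommGroup W] [Module F W] (e : V ≃ₗ[F] W) (k t : ℕ) :
    QK F V k t ≃g QK F W k t where
  toFun S := ⟨S.1.map (e : V →ₗ[F] W), by rw [LinearEquiv.finrank_map_eq e S.1, S.2]⟩
  invFun S := ⟨S.1.map (e.symm : W →ₗ[F] V), by rw [LinearEquiv.finrank_map_eq e.symm S.1, S.2]⟩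
  left_inv S := by
    apply Subtype.ext
    show (S.1.map (e : V →ₗ[F] W)).map (e.symm : W →ₗ[F] V) = S.1
    rw [← Submodule.map_comp]
    simp
  right_inv S := by
    apply Subtype.ext
    show (S.1.map (e.symm : W →ₗ[F] V)).map (e : V →ₗ[F] W) = S.1
    rw [← Submodule.map_comp]
    simp
  map_rel_iff' {S T} := by
    show (_ ≠ _ ∧ finrank F (S.1.map (e : V →ₗ[F] W) ⊓ T.1.map (e : V →ₗ[F] W) : Submodule F W) < t)
      ↔ (S ≠ T ∧ finrank F (S.1 ⊓ T.1 : Submodule F V) < t)
    rw [← Submodule.map_inf _ e.injective, LinearEquiv.finrank_map_eq e]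
    refine and_congr_left fun _ => ?_
    rw [ne_eq, ne_eq, not_iff_not]
    constructor
    · intro h
      have h1 : S.1.map (e : V →ₗ[F] W) = T.1.map (e : V →ₗ[F] W) := congrArg Subtype.val h
      exact Subtype.ext (Submodule.map_injective_of_injective e.injective h1)
    · rintro rfl
      rfl

lemma finrank_inf_lt {t : ℕ} [FiniteDimensional F V] (S T : Gr F V t) (h : S ≠ T) :
    finrank F (S.1 ⊓ T.1 : Submodule F V) < t := by
  by_contra hlt
  rw [not_lt] at hlt
  apply h
  apply Subtype.ext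
  have h1 : S.1 ⊓ T.1 = S.1 := Submodule.eq_of_le_of_finrank_le inf_le_left (by rw [S.2]; exact hlt)
  have h2 : S.1 ⊓ T.1 = T.1 := Submodule.eq_of_le_of_finrank_le inf_le_right (by rw [T.2]; exact hlt)
  exact h1.symm.trans h2

/-- the duality between `k`-dimensional and `(n - k)`-dimensional subspaces -/
noncomputable def dualIso [FiniteDimensional F V] (n k t : ℕ) (hk : k ≤ n) (hkt : 2 * k ≤ n + t)
    (hV : finrank F V = n) : QK F V k t ≃g QK F (Dual F V) (n - k) (n + t - 2 * k) where
  toFun S := ⟨S.1.dualAnnihilator, by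
    have := Subspace.finrank_add_finrank_dualAnnihilator_eq S.1
    rw [S.2, hV] at this
    omega⟩
  invFun S := ⟨S.1.dualCoannihilator, by
    have := Subspace.finrank_add_finrank_dualCoannihilator_eq S.1
    rw [S.2, hV] at this
    omega⟩
  left_inv S := Subtype.ext (Subspace.dualAnnihilator_dualCoannihilator_eq)
  right_inv S := Subtype.ext (Subspace.dualCoannihilator_dualAnnihilator_eq)
  map_rel_iff' {S T} := by
    show (_ ≠ _ ∧ finrank F (S.1.dualAnnihilator ⊓ T.1.dualAnnihilator :
      Submodule F (Dual F V)) < n + t - 2 * k)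
      ↔ (S ≠ T ∧ finrank F (S.1 ⊓ T.1 : Submodule F V) < t)
    rw [← Submodule.dualAnnihilator_sup_eq]
    have h1 := Subspace.finrank_add_finrank_dualAnnihilator_eq (S.1 ⊔ T.1)
    have h2 := Submodule.finrank_sup_add_finrank_inf_eq S.1 T.1
    rw [S.2, T.2] at h2
    rw [hV] at h1
    have h3 : finrank F (S.1 ⊔ T.1).dualAnnihilator < n + t - 2 * k ↔
        finrank F (S.1 ⊓ T.1 : Submodule F V) < t := by omega
    rw [h3]
    refine and_congr_left fun _ => ?_
    rw [ne_eq, ne_eq, not_iff_not]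
    constructor
    · intro h
      have h4 : S.1.dualAnnihilator = T.1.dualAnnihilator := congrArg Subtype.val h
      exact Subtype.ext (Subspace.dualAnnihilator_inj.1 h4)
    · rintro rfl
      rfl

end Subspaces

lemma IsMinor.congr {W V W' V' : Type} {H : SimpleGraph W} {G : SimpleGraph V}
    {H' : SimpleGraph W'} {G' : SimpleGraph V'} (h : IsMinor H G) (e : H' ≃g H) (e' : G ≃g G') :
    IsMinor H' G' := by
  obtain ⟨B, h1, h2, h3⟩ := h
  refine ⟨fun w => e' '' B (e w), ?_, ?_, ?_⟩
  · intro w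
    obtain ⟨⟨x, hx⟩⟩ := (h1 (e w)).nonempty
    have : Nonempty (e' '' B (e w) : Set V') := ⟨⟨e' x, x, hx, rfl⟩⟩
    refine ⟨?_⟩
    rintro ⟨_, u, hu, rfl⟩ ⟨_, v, hv, rfl⟩
    have h4 := (h1 (e w)).preconnected ⟨u, hu⟩ ⟨v, hv⟩
    let φ : G.induce (B (e w)) →g G'.induce (e' '' B (e w)) :=
      ⟨fun x => ⟨e' x.1, x.1, x.2, rfl⟩, fun {a b} hab => e'.map_rel_iff.2 hab⟩
    exact h4.map φ
  · intro w w' hww'
    rw [Set.disjoint_left]
    rintro _ ⟨u, hu, rfl⟩ ⟨v, hv, hvu⟩
    have h4 := e'.injective hvu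
    subst h4
    exact Set.disjoint_left.1 (h2 (e w) (e w') fun h' => hww' (e.injective h')) hu hv
  · intro w w' hww'
    obtain ⟨u, hu, v, hv, huv⟩ := h3 (e w) (e w') (e.map_rel_iff.2 hww')
    exact ⟨e' u, ⟨u, hu, rfl⟩, e' v, ⟨v, hv, rfl⟩, e'.map_rel_iff.2 huv⟩

/-- the number of the `e`-dimensional subspaces of `F ^ N` (a Gaussian binomial coefficient) -/
noncomputable def gauss (F : Type) [Field F] (N e : ℕ) : ℕ := Nat.card (Gr F (Fin N → F) e)

section Main

variable {F : Type} [Field F] [Finite F]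

omit [Finite F] in
lemma card_gr {V : Type} [AddCommGroup V] [Module F V] [FiniteDimensional F V] (N e : ℕ)
    (h : finrank F V = N) : Nat.card (Gr F V e) = gauss F N e := by
  have g : V ≃ₗ[F] (Fin N → F) := LinearEquiv.ofFinrankEq _ _ (by rw [h, finrank_fin_fun])
  exact Nat.card_congr (isoOfEquiv g e 1).toEquiv

omit [Finite F] in
lemma nonempty_gr {V : Type} [AddCommGroup V] [Module F V] [FiniteDimensional F V] (k : ℕ)
    (h : k ≤ finrank F V) : Nonempty (Gr F V k) := by
  obtain ⟨S, -, hS⟩ := exists_sub (⊤ : Submodule F V) k (by rw [finrank_top]; exact h)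
  exact ⟨⟨S, hS⟩⟩

lemma complete_minor {V : Type} [Finite V] {G : SimpleGraph V} (h : ∀ u v, u ≠ v → G.Adj u v) :
    CliqueMinor G (Nat.card V) :=
  clique_of_injective (Finite.equivFin V).symm fun _ _ hij =>
    h _ _ fun h' => hij ((Finite.equivFin V).symm.injective h')

lemma one_minor {V : Type} [Nonempty V] (G : SimpleGraph V) : CliqueMinor G 1 :=
  clique_of_injective (fun _ => Classical.arbitrary V) fun _ _ hij =>
    absurd (Subsingleton.elim _ _) hij

lemma colorable_card {V : Type} [Finite V] (G : SimpleGraph V) : G.Colorable (Nat.card V) := by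
  have := Fintype.ofFinite V
  rw [Nat.card_eq_fintype_card]
  exact G.selfColoring.colorable

theorem clique_minor (t : ℕ) (ht : 1 ≤ t) : ∀ j n : ℕ, 2 * (t + j) ≤ n →
    CliqueMinor (QK F (Fin n → F) (t + j) t) (gauss F (n - j) t) := by
  intro j
  induction j with
  | zero =>
    intro n _
    exact complete_minor fun S T h => ⟨h, finrank_inf_lt S T h⟩
  | succ j ih =>
    intro n hn
    obtain ⟨n, rfl⟩ : ∃ n', n = n' + 1 := ⟨n - 1, by omega⟩
    have h1 := ih n (by omega)
    have h2 := step (F := F) (V := Fin n → F) (t + j) t ht (by rw [finrank_fin_fun]; omega)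
    have e : ((Fin n → F) × F) ≃ₗ[F] (Fin (n + 1) → F) := LinearEquiv.ofFinrankEq _ _ (by simp)
    have h3 := h2.congr (RelIso.refl _) (isoOfEquiv e (t + j + 1) t)
    have h4 := h1.trans h3
    have h5 : n + 1 - (j + 1) = n - j := by omega
    rw [h5]
    exact h4

theorem colorable_main (n k t : ℕ) (htk : t ≤ k) (hkn : k ≤ n) :
    (QK F (Fin n → F) k t).Colorable (gauss F (n + t - k) t) := by
  classical
  obtain ⟨W, -, hW⟩ := exists_sub (⊤ : Submodule F (Fin n → F)) (n + t - k)
    (by rw [finrank_top, finrank_fin_fun]; omega)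
  have hc : ∀ S : Gr F (Fin n → F) k, ∃ c : Submodule F (Fin n → F), c ≤ S.1 ⊓ W ∧
      finrank F c = t := by
    intro S
    apply exists_sub
    have h1 := Submodule.finrank_sup_add_finrank_inf_eq S.1 W
    have h2 := Submodule.finrank_le (S.1 ⊔ W)
    rw [finrank_fin_fun] at h2
    rw [S.2, hW] at h1
    omega
  choose c hc1 hc2 using hc
  have hcW : ∀ S, c S ≤ W := fun S => (hc1 S).trans inf_le_right
  let C : (QK F (Fin n → F) k t).Coloring (Gr F W t) := SimpleGraph.Coloring.mk
    (fun S => ⟨(c S).comap W.subtype, by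
      rw [(Submodule.comapSubtypeEquivOfLe (hcW S)).finrank_eq, hc2 S]⟩) (by
    intro S T hST h
    have h1 : (c S).comap W.subtype = (c T).comap W.subtype := congrArg Subtype.val h
    have h2 : c S = c T := by
      have e : ∀ S, ((c S).comap W.subtype).map W.subtype = c S := fun S => by
        rw [Submodule.map_comap_subtype, inf_eq_right.2 (hcW S)]
      rw [← e S, ← e T, h1]
    have h3 : c S ≤ S.1 ⊓ T.1 := le_inf ((hc1 S).trans inf_le_left)
      (by rw [h2]; exact (hc1 T).trans inf_le_left)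
    have h4 := Submodule.finrank_mono h3
    rw [hc2 S] at h4
    have h5 := hST.2
    omega)
  have := Fintype.ofFinite (Gr F W t)
  have h := C.colorable
  rwa [← Nat.card_eq_fintype_card, card_gr (n + t - k) t hW] at h

omit [Finite F] in
lemma gauss_zero (N : ℕ) : gauss F N 0 = 1 := by
  unfold gauss
  rw [Nat.card_eq_one_iff_unique]
  refine ⟨⟨fun S T => Subtype.ext ?_⟩, nonempty_gr 0 (Nat.zero_le _)⟩
  rw [Submodule.finrank_eq_zero.1 S.2, Submodule.finrank_eq_zero.1 T.2]

theorem main_low (n k t : ℕ) (htk : t ≤ k) (hkn : 2 * k ≤ n) :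
    CliqueMinor (QK F (Fin n → F) k t) (gauss F (n + t - k) t) := by
  rcases Nat.eq_zero_or_pos t with rfl | ht
  · rw [gauss_zero]
    have := nonempty_gr (F := F) (V := Fin n → F) k (by rw [finrank_fin_fun]; omega)
    exact one_minor _
  · obtain ⟨j, rfl⟩ : ∃ j, k = t + j := ⟨k - t, by omega⟩
    have h := clique_minor (F := F) t ht j n hkn
    have h1 : n + t - (t + j) = n - j := by omega
    rw [h1]
    exact h

theorem main (n k t : ℕ) (htk : t ≤ k) (hkn : k ≤ n) (h : 2 * k ≤ n + t) :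
    CliqueMinor (QK F (Fin n → F) k t) (gauss F (n + t - k) (min t (n + t - 2 * k))) ∧
      (QK F (Fin n → F) k t).Colorable (gauss F (n + t - k) (min t (n + t - 2 * k))) := by
  rcases Nat.le_total (2 * k) n with hn | hn
  · rw [min_eq_left (by omega)]
    exact ⟨main_low n k t htk hn, colorable_main n k t htk hkn⟩
  · rw [min_eq_right (by omega)]
    have e1 := dualIso (F := F) (V := Fin n → F) n k t hkn h (finrank_fin_fun F)
    have g : Dual F (Fin n → F) ≃ₗ[F] (Fin n → F) := LinearEquiv.ofFinrankEq _ _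
      Subspace.dual_finrank_eq
    have e2 := isoOfEquiv g (n - k) (n + t - 2 * k)
    have e3 := e1.trans e2
    have h1 := main_low (F := F) n (n - k) (n + t - 2 * k) (by omega) (by omega)
    have h2 := colorable_main (F := F) n (n - k) (n + t - 2 * k) (by omega) (by omega)
    have h3 : n + (n + t - 2 * k) - (n - k) = n + t - k := by omega
    rw [h3] at h1 h2
    exact ⟨h1.trans (IsMinor.of_iso e3.symm), h2.of_hom ⟨fun x => e3 x, fun hxy => e3.map_rel_iff.2 hxy⟩⟩

theorem hadwiger (n k t c : ℕ) (h : ¬ (QK F (Fin n → F) k t).Colorable c) :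
    CliqueMinor (QK F (Fin n → F) k t) (c + 1) := by
  have fin : ∀ m : ℕ, CliqueMinor (QK F (Fin n → F) k t) m → (QK F (Fin n → F) k t).Colorable m →
      CliqueMinor (QK F (Fin n → F) k t) (c + 1) := by
    intro m h1 h2
    refine h1.le ?_
    by_contra hlt
    exact h (h2.mono (by omega))
  rcases Nat.lt_or_ge n k with hn | hn
  · exfalso
    apply h
    have : IsEmpty (Gr F (Fin n → F) k) := ⟨fun S => by
      have h1 := Submodule.finrank_le S.1
      rw [S.2, finrank_fin_fun] at h1
      omega⟩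
    exact ⟨SimpleGraph.Coloring.mk (fun S => (IsEmpty.false S).elim)
      (fun {S _} _ => (IsEmpty.false S).elim)⟩
  have hne := nonempty_gr (F := F) (V := Fin n → F) k (by rw [finrank_fin_fun]; exact hn)
  rcases Nat.lt_or_ge k t with hkt | hkt
  · refine fin _ (complete_minor fun S T hST => ⟨hST, ?_⟩) (colorable_card _)
    have h1 : finrank F (S.1 ⊓ T.1 : Submodule F (Fin n → F)) ≤ finrank F S.1 :=
      Submodule.finrank_mono inf_le_left
    rw [S.2] at h1
    omega
  rcases Nat.lt_or_ge (n + t) (2 * k) with hn2 | hn2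
  · refine fin 1 (one_minor _) ⟨SimpleGraph.Coloring.mk (fun _ => 0) ?_⟩
    intro S T hST
    exfalso
    have h1 := Submodule.finrank_sup_add_finrank_inf_eq S.1 T.1
    have h2 := Submodule.finrank_le (S.1 ⊔ T.1)
    rw [finrank_fin_fun] at h2
    rw [S.2, T.2] at h1
    have h3 := hST.2
    omega
  · exact fin _ (main n k t hkt hn hn2).1 (main n k t hkt hn hn2).2

/-- `K_q(n, k, t)` is a minor of `K_q(n + 1, k + 1, t)` if `2 k < n` -/
theorem minor_up (n k t : ℕ) (ht : 1 ≤ t) (h : 2 * k < n) :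
    IsMinor (QK F (Fin n → F) k t) (QK F (Fin (n + 1) → F) (k + 1) t) := by
  have h2 := step (F := F) (V := Fin n → F) k t ht (by rw [finrank_fin_fun]; omega)
  have e : ((Fin n → F) × F) ≃ₗ[F] (Fin (n + 1) → F) := LinearEquiv.ofFinrankEq _ _ (by simp)
  exact h2.congr (RelIso.refl _) (isoOfEquiv e (k + 1) t)

/-- the dual form: `K_q(n, k, t + 1)` is a minor of `K_q(n + 1, k, t)` if `n < 2 k ≤ n + t` -/
theorem minor_dual (n k t : ℕ) (hkn : k ≤ n) (h : n < 2 * k) (hkt : 2 * k ≤ n + t) :
    IsMinor (QK F (Fin n → F) k (t + 1)) (QK F (Fin (n + 1) → F) k t) := by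
  have g : ∀ n, Nonempty (Dual F (Fin n → F) ≃ₗ[F] (Fin n → F)) := fun n =>
    ⟨LinearEquiv.ofFinrankEq _ _ Subspace.dual_finrank_eq⟩
  have e1 := (dualIso (F := F) (V := Fin n → F) n k (t + 1) hkn (by omega)
    (finrank_fin_fun F)).trans (isoOfEquiv (g n).some (n - k) (n + (t + 1) - 2 * k))
  have e2 := (dualIso (F := F) (V := Fin (n + 1) → F) (n + 1) k t (by omega) (by omega)
    (finrank_fin_fun F)).trans (isoOfEquiv (g (n + 1)).some (n + 1 - k) (n + 1 + t - 2 * k))
  have h1 : n + 1 - k = n - k + 1 := by omega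
  have h2 : n + 1 + t - 2 * k = n + (t + 1) - 2 * k := by omega
  rw [h1, h2] at e2
  exact (minor_up (F := F) n (n - k) (n + (t + 1) - 2 * k) (by omega) (by omega)).congr e1 e2.symm

end Main

/-- **Hadwiger's conjecture for all generalized `q`-Kneser graphs.**  Let `F` be a finite field with
`q` elements and `K_q(n, k, t) = QK F (F ^ n) k t`.
(1) `K_q(n, k, t)` is a minor of `K_q(n + 1, k + 1, t)` if `t ≥ 1` and `2 k < n`, and
`K_q(n, k, t + 1)` is a minor of `K_q(n + 1, k, t)` if `n < 2 k ≤ n + t` and `k ≤ n`.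
(2) If `t ≤ k ≤ n` and `2 k ≤ n + t`, let `m` be the number of the subspaces of dimension
`min (t, n + t - 2 k)` of `F ^ (n + t - k)`. Then `K_m` is a minor of `K_q(n, k, t)`, and
`K_q(n, k, t)` has a proper colouring with `m` colours.
(3) If `K_q(n, k, t)` has no proper colouring with `c` colours, then `K_{c+1}` is a minor of it, for
all `n, k, t, c`. -/
theorem result (F : Type) [Field F] [Finite F] :
    ((∀ n k t : ℕ, 1 ≤ t → 2 * k < n →
        IsMinor (QK F (Fin n → F) k t) (QK F (Fin (n + 1) → F) (k + 1) t)) ∧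
      (∀ n k t : ℕ, k ≤ n → n < 2 * k → 2 * k ≤ n + t →
        IsMinor (QK F (Fin n → F) k (t + 1)) (QK F (Fin (n + 1) → F) k t))) ∧
    (∀ n k t m : ℕ, t ≤ k → k ≤ n → 2 * k ≤ n + t →
      m = Nat.card (Gr F (Fin (n + t - k) → F) (min t (n + t - 2 * k))) →
      CliqueMinor (QK F (Fin n → F) k t) m ∧ (QK F (Fin n → F) k t).Colorable m) ∧
    ∀ n k t c : ℕ, ¬ (QK F (Fin n → F) k t).Colorable c →
      CliqueMinor (QK F (Fin n → F) k t) (c + 1) := by
  refine ⟨⟨fun n k t => minor_up n k t, fun n k t => minor_dual n k t⟩, ?_,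
    fun n k t c => hadwiger n k t c⟩
  rintro n k t m h1 h2 h3 rfl
  exact main n k t h1 h2 h3

end Pool.Agent.Results.MP_b47bfb_co.QKneserGraphs
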