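import Mathlib

/-!
# Hadwiger's conjecture for all stable Kneser graphs

Let `s ≥ 2`, `k ≥ 1` and `n ≥ s k`.  The `s`-stable Kneser graph has as vertices the `k`-element subsets of
the cycle `{0, ..., n - 1}` any two elements of which are at distance at least `s` on the cycle; two sets are
adjacent if they are disjoint (`s = 2`: the Schrijver graphs).  Its chromatic number is conjectured to be
`N = n - s (k - 1)` (Meunier); this is known for `s = 2` (Schrijver) and for even `s` and large `n`.  We prove
that `K_N` is a minor of it.  Since `N` colours suffice, Hadwiger's conjecture holds for these graphs, and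
for all graphs between them and the graphs of the sets without a condition on the distance around the end
(and, for `s = 2`, between them and the Kneser graphs).

Proof.  Induction on `n`.  For `n = s k` there are `s` disjoint sets.  In the step from `n` to `n + 1` the
sets `S` which contain the new element `n` and the shifted sets `S - 1`, for those `S` with `s - 1 ∈ S`,
form a connected set of vertices, which is disjoint from the graph for `n`, and each vertex of the graph for
`n` has a neighbour in it.
-/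

set_option autoImplicit false

open Finset

namespace Pool.Agent.Results.MP_b47bfb_co.StableKneserGraphs

/-- `S ⊆ {0, ..., n - 1}`, and any two elements of `S` are at distance at least `s` on the cycle of
length `n` -/
def Stable (s n : ℕ) (S : Finset ℕ) : Prop :=
  (∀ x ∈ S, x < n) ∧ ∀ x ∈ S, ∀ y ∈ S, x < y → x + s ≤ y ∧ y + s ≤ x + n

/-- any two elements of `S` are at distance at least `s` on the line -/
def Spread (s : ℕ) (S : Finset ℕ) : Prop := ∀ x ∈ S, ∀ y ∈ S, x < y → x + s ≤ y

/-- two different finite sets of natural numbers are adjacent if they are disjoint -/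
def disjGraph : SimpleGraph (Finset ℕ) where
  Adj A B := A ≠ B ∧ Disjoint A B
  symm := ⟨fun _ _ h => ⟨h.1.symm, h.2.symm⟩⟩
  loopless := ⟨fun _ h => h.1 rfl⟩

/-- the Kneser graph of the family `F`: the vertices are the members of `F`, and they are adjacent if they
are disjoint -/
def KG (F : Set (Finset ℕ)) : SimpleGraph F := disjGraph.induce F

/-- `K_m` is a minor of `G` -/
def CliqueMinor {V : Type} (G : SimpleGraph V) (m : ℕ) : Prop :=
  ∃ B : Fin m → Set V, (∀ i, (G.induce (B i)).Connected) ∧
    ∀ i j, i ≠ j → Disjoint (B i) (B j) ∧ ∃ u ∈ B i, ∃ v ∈ B j, G.Adj u v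

/-! ## Minors inside a family -/

/-- a clique minor with branch sets inside `F` -/
def MinorIn (F : Set (Finset ℕ)) (m : ℕ) : Prop :=
  ∃ B : Fin m → Set (Finset ℕ), (∀ i, B i ⊆ F ∧ (disjGraph.induce (B i)).Connected) ∧
    ∀ i j, i ≠ j → Disjoint (B i) (B j) ∧ ∃ u ∈ B i, ∃ v ∈ B j, disjGraph.Adj u v

lemma MinorIn.mono {F F' : Set (Finset ℕ)} (h : F ⊆ F') {m : ℕ} (hm : MinorIn F m) : MinorIn F' m := by
  obtain ⟨B, h1, h2⟩ := hm
  exact ⟨B, fun i => ⟨(h1 i).1.trans h, (h1 i).2⟩, h2⟩

lemma MinorIn.clique {F : Set (Finset ℕ)} {m : ℕ} (hm : MinorIn F m) : CliqueMinor (KG F) m := by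
  obtain ⟨B, h1, h2⟩ := hm
  refine ⟨fun i => {x : F | x.1 ∈ B i}, fun i => ?_, fun i j hij => ?_⟩
  · have e : disjGraph.induce (B i) ≃g (KG F).induce {x : F | x.1 ∈ B i} :=
      { toFun := fun x => ⟨⟨x.1, (h1 i).1 x.2⟩, x.2⟩
        invFun := fun x => ⟨x.1.1, x.2⟩
        left_inv := fun _ => rfl
        right_inv := fun _ => rfl
        map_rel_iff' := Iff.rfl }
    exact e.connected_iff.1 (h1 i).2
  · obtain ⟨h3, u, hu, v, hv, huv⟩ := h2 i j hij
    refine ⟨?_, ⟨u, (h1 i).1 hu⟩, hu, ⟨v, (h1 j).1 hv⟩, hv, huv⟩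
    rw [Set.disjoint_left] at h3 ⊢
    exact fun x hx hx' => h3 hx hx'

lemma CliqueMinor.le {V : Type} {G : SimpleGraph V} {m m' : ℕ} (h : m' ≤ m) (hm : CliqueMinor G m) :
    CliqueMinor G m' := by
  obtain ⟨B, h1, h2⟩ := hm
  refine ⟨fun i => B (Fin.castLE h i), fun i => h1 _, fun i j hij => h2 _ _ fun h' => hij ?_⟩
  exact Fin.castLE_injective h h'

/-- a set of vertices each of which is joined to `c` inside the set is connected -/
lemma conn_of {V : Type} {G : SimpleGraph V} {E : Set V} {c : V} (hc : c ∈ E)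
    (h : ∀ x ∈ E, Relation.ReflTransGen (fun a b => b ∈ E ∧ G.Adj a b) x c) :
    (G.induce E).Connected := by
  have key : ∀ x y : V, Relation.ReflTransGen (fun a b => b ∈ E ∧ G.Adj a b) x y →
      ∀ hx : x ∈ E, ∃ hy : y ∈ E, (G.induce E).Reachable ⟨x, hx⟩ ⟨y, hy⟩ := by
    intro x y hxy
    induction hxy with
    | refl => exact fun hx => ⟨hx, SimpleGraph.Reachable.refl _⟩
    | tail _ hbc ih =>
      intro hx
      obtain ⟨hb, h1⟩ := ih hx
      refine ⟨hbc.1, h1.trans (SimpleGraph.Adj.reachable ?_)⟩
      exact hbc.2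
  rw [SimpleGraph.connected_iff_exists_forall_reachable]
  refine ⟨⟨c, hc⟩, fun x => ?_⟩
  obtain ⟨hy, h1⟩ := key x.1 c (h x.1 x.2) x.2
  exact h1.symm

/-! ## The new branch set -/

section step

variable {s n k : ℕ}

/-- the stable sets -/
def Fam (s n k : ℕ) : Set (Finset ℕ) := {S | S.card = k ∧ Stable s n S}

/-- the stable sets which contain the new element -/
def C0 (s n k : ℕ) : Set (Finset ℕ) := {S | S ∈ Fam s (n + 1) k ∧ n ∈ S}

/-- the new branch set -/
def EE (s n k : ℕ) : Set (Finset ℕ) :=
  C0 s n k ∪ {T | ∃ S ∈ C0 s n k, s - 1 ∈ S ∧ T = S.image (fun x => x - 1)}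

lemma C0.ge {S : Finset ℕ} (hS : S ∈ C0 s n k) (hn : s ≤ n) {x : ℕ} (hx : x ∈ S) : s - 1 ≤ x := by
  obtain ⟨⟨-, h1, h2⟩, h3⟩ := hS
  rcases lt_or_ge x n with h | h
  · have := (h2 x hx n h3 h).2
    omega
  · omega

/-- replacing an element by a smaller one -/
lemma C0.replace (hs : 2 ≤ s) (hn : s ≤ n) {S : Finset ℕ} (hS : S ∈ C0 s n k) {y z : ℕ} (hy : y ∈ S)
    (hyn : y ≠ n) (hz : s - 1 ≤ z) (hzy : z < y) (hp : ∀ p ∈ S, p < y → p + s ≤ z) :
    insert z (S.erase y) ∈ C0 s n k ∧ ∑ x ∈ insert z (S.erase y), x < ∑ x ∈ S, x ∧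
      Disjoint S ((insert z (S.erase y)).image (fun x => x - 1)) := by
  have hS' := hS
  obtain ⟨⟨hc, h1, h2⟩, h3⟩ := hS
  have hzS : z ∉ S := by
    intro h
    have := hp z h hzy
    omega
  have hzS' : z ∉ S.erase y := fun h => hzS (mem_of_mem_erase h)
  have hyn' : y < n := lt_of_le_of_ne (Nat.lt_succ_iff.1 (h1 y hy)) hyn
  have hyl := (h2 y hy n h3 hyn').1
  refine ⟨⟨⟨?_, ?_, ?_⟩, ?_⟩, ?_, ?_⟩
  · rw [card_insert_of_notMem hzS', card_erase_of_mem hy]
    have : 0 < S.card := card_pos.2 ⟨y, hy⟩
    omega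
  · intro x hx
    rw [mem_insert] at hx
    rcases hx with rfl | hx
    · omega
    · exact h1 x (mem_of_mem_erase hx)
  · intro x hx w hw hxw
    rw [mem_insert, mem_erase] at hx hw
    rcases hx with rfl | ⟨hx1, hx⟩
    · rcases hw with rfl | ⟨hw1, hw⟩
      · omega
      · have hwy : y < w := by
          rcases lt_trichotomy w y with h | h | h
          · have := hp w hw h
            omega
          · exact absurd h hw1
          · exact h
        have h4 := (h2 y hy w hw hwy)
        refine ⟨by omega, ?_⟩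
        rcases lt_or_ge w n with h | h
        · have h5 := (h2 w hw n h3 h).1
          omega
        · have : w = n := by
            have := h1 w hw
            omega
          omega
    · rcases hw with rfl | ⟨hw1, hw⟩
      · refine ⟨hp x hx (by omega), ?_⟩
        have h4 := (h2 x hx y hy (by omega)).2
        omega
      · exact h2 x hx w hw hxw
  · rw [mem_insert, mem_erase]
    exact Or.inr ⟨hyn.symm, h3⟩
  · rw [sum_insert hzS']
    have := sum_erase_add S (fun x => x) hy
    omega
  · rw [disjoint_left]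
    intro a ha ha'
    rw [mem_image] at ha'
    obtain ⟨b, hb, hba⟩ := ha'
    rw [mem_insert, mem_erase] at hb
    rcases hb with rfl | ⟨hb1, hb⟩
    · -- a = z - 1
      have h4 := C0.ge hS' hn ha
      have h5 := hp a ha (by omega)
      omega
    · have h4 := C0.ge hS' hn hb
      have h5 := (h2 a ha b hb (by omega)).1
      omega

lemma shift_disj (hs : 2 ≤ s) (hn : s ≤ n) {S : Finset ℕ} (hS : S ∈ C0 s n k) :
    Disjoint S (S.image (fun x => x - 1)) := by
  rw [disjoint_left]
  intro a ha ha'
  rw [mem_image] at ha'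
  obtain ⟨b, hb, hba⟩ := ha'
  have h4 := C0.ge hS hn hb
  have h5 := (hS.1.2.2 a ha b hb (by omega)).1
  omega

lemma adj_shift {S T : Finset ℕ} (hS : n ∈ S) (hT : ∀ x ∈ T, x < n) (h : Disjoint S T) :
    disjGraph.Adj S T := by
  refine ⟨fun h' => ?_, h⟩
  subst h'
  exact absurd (hT n hS) (lt_irrefl n)

lemma shift_lt (hs : 2 ≤ s) (hn : s ≤ n) {S : Finset ℕ} (hS : S ∈ C0 s n k) :
    ∀ x ∈ S.image (fun x => x - 1), x < n := by
  intro x hx
  rw [mem_image] at hx
  obtain ⟨b, hb, rfl⟩ := hx
  have h4 := C0.ge hS hn hb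
  have h5 := hS.1.2.1 b hb
  omega

/-- the new branch set is connected -/
lemma EE_conn (hs : 2 ≤ s) (hn : s ≤ n) (hne : (C0 s n k).Nonempty) :
    (disjGraph.induce (EE s n k)).Connected := by
  classical
  -- a set of least sum
  obtain ⟨c, hc, hmin⟩ := (measure (fun S : Finset ℕ => ∑ x ∈ S, x)).wf.has_min (C0 s n k) hne
  have hmin' : ∀ S ∈ C0 s n k, ∑ x ∈ c, x ≤ ∑ x ∈ S, x := fun S hS => not_lt.1 (hmin S hS)
  have hC : ∀ S ∈ C0 s n k, S ∈ EE s n k := fun S hS => Or.inl hS
  have hT : ∀ S ∈ C0 s n k, s - 1 ∈ S → S.image (fun x => x - 1) ∈ EE s n k :=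
    fun S hS h => Or.inr ⟨S, hS, h, rfl⟩
  -- one step
  have step : ∀ S ∈ C0 s n k, ∀ S' ∈ C0 s n k, s - 1 ∈ S' → Disjoint S (S'.image (fun x => x - 1)) →
      Relation.ReflTransGen (fun a b => b ∈ EE s n k ∧ disjGraph.Adj a b) S S' := by
    intro S hS S' hS' h1 h2
    refine Relation.ReflTransGen.tail (Relation.ReflTransGen.single
      ⟨hT S' hS' h1, adj_shift hS.2 (shift_lt hs hn hS') h2⟩) ⟨hC S' hS', ?_⟩
    exact (adj_shift hS'.2 (shift_lt hs hn hS') (shift_disj hs hn hS')).symm
  -- decreasing: the first difference of two sets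
  have dec : ∀ S ∈ C0 s n k, ∀ R ∈ C0 s n k, ∀ m ∈ R, m ∉ S → (∀ x < m, x ∈ S ↔ x ∈ R) →
      ∃ y ∈ S, y ≠ n ∧ s - 1 ≤ y - 1 ∧ y - 1 < y ∧ ∀ p ∈ S, p < y → p + s ≤ y - 1 := by
    intro S hS R hR m hmR hmS hlow
    have hmn : m ≠ n := fun h => hmS (h ▸ hS.2)
    have hmn' : m < n := lt_of_le_of_ne (Nat.lt_succ_iff.1 (hR.1.2.1 m hmR)) hmn
    -- `S` has at least two elements above `m`
    have hcard : (R.filter (fun x => m ≤ x)).card = (S.filter (fun x => m ≤ x)).card := by
      have e1 := card_filter_add_card_filter_not (s := R) (fun x => x < m)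
      have e2 := card_filter_add_card_filter_not (s := S) (fun x => x < m)
      have e3 : R.filter (fun x => x < m) = S.filter (fun x => x < m) := by
        ext x
        simp only [mem_filter]
        constructor
        · rintro ⟨g1, g2⟩
          exact ⟨(hlow x g2).2 g1, g2⟩
        · rintro ⟨g1, g2⟩
          exact ⟨(hlow x g2).1 g1, g2⟩
      simp only [not_lt] at e1 e2
      have e4 := hR.1.1
      have e5 := hS.1.1
      rw [e3] at e1
      omega
    have h2 : 2 ≤ (R.filter (fun x => m ≤ x)).card := by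
      have : ({m, n} : Finset ℕ) ⊆ R.filter (fun x => m ≤ x) := by
        intro x hx
        rw [mem_insert, mem_singleton] at hx
        rw [mem_filter]
        rcases hx with rfl | rfl
        · exact ⟨hmR, le_rfl⟩
        · exact ⟨hR.2, hmn'.le⟩
      have h3 := card_le_card this
      rwa [card_pair hmn] at h3
    set U := S.filter (fun x => m ≤ x) with hU
    have hUne : U.Nonempty := card_pos.1 (by omega)
    set y := U.min' hUne with hy
    have hyU : y ∈ U := U.min'_mem hUne
    have hyS : y ∈ S := (mem_filter.1 hyU).1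
    have hmy : m ≤ y := (mem_filter.1 hyU).2
    have hmy' : m < y := lt_of_le_of_ne hmy fun h => hmS (h ▸ hyS)
    have hyn : y ≠ n := by
      intro h
      have : U ⊆ {n} := by
        intro x hx
        have h4 := U.min'_le x hx
        rw [← hy, h] at h4
        have h5 := hS.1.2.1 x (mem_filter.1 hx).1
        rw [mem_singleton]
        omega
      have h6 := card_le_card this
      rw [card_singleton] at h6
      omega
    have hms := C0.ge hR hn hmR
    refine ⟨y, hyS, hyn, by omega, by omega, ?_⟩
    intro p hp hpy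
    have hpm : p < m := by
      by_contra h
      have h7 := U.min'_le p (mem_filter.2 ⟨hp, not_lt.1 h⟩)
      rw [← hy] at h7
      omega
    have h8 := (hR.1.2.2 p ((hlow p hpm).1 hp) m hmR hpm).1
    omega
  -- every set is joined to `c`
  have main : ∀ N : ℕ, ∀ S ∈ C0 s n k, ∑ x ∈ S, x ≤ N →
      Relation.ReflTransGen (fun a b => b ∈ EE s n k ∧ disjGraph.Adj a b) S c := by
    intro N
    induction N with
    | zero =>
      intro S hS h0
      have h1 : n ≤ ∑ x ∈ S, x := single_le_sum (f := fun x => x) (fun _ _ => Nat.zero_le _) hS.2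
      omega
    | succ N ih =>
      intro S hS hN
      by_cases hSc : S = c
      · subst hSc
        exact Relation.ReflTransGen.refl
      -- the first difference
      have hex : ∃ m, ¬ (m ∈ S ↔ m ∈ c) := by
        by_contra h
        push Not at h
        exact hSc (Finset.ext h)
      set m := Nat.find hex with hm
      have hmd : ¬ (m ∈ S ↔ m ∈ c) := Nat.find_spec hex
      have hml : ∀ x < m, x ∈ S ↔ x ∈ c := fun x hx => not_not.1 (Nat.find_min hex hx)
      have hmS : m ∉ S := by
        intro h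
        have hmc : m ∉ c := fun h' => hmd ⟨fun _ => h', fun _ => h⟩
        obtain ⟨y, hy1, hy2, hy3, hy4, hy5⟩ := dec c hc S hS m h hmc (fun x hx => (hml x hx).symm)
        obtain ⟨g1, g2, -⟩ := C0.replace hs hn hc hy1 hy2 hy3 hy4 hy5
        exact absurd (hmin' _ g1) (not_le.2 g2)
      have hmc : m ∈ c := by
        by_contra h
        exact hmd ⟨fun h' => absurd h' hmS, fun h' => absurd h' h⟩
      obtain ⟨y, hy1, hy2, hy3, hy4, hy5⟩ := dec S hS c hc m hmc hmS hml
      by_cases hs1 : s - 1 ∈ S
      · obtain ⟨g1, g2, g3⟩ := C0.replace hs hn hS hy1 hy2 hy3 hy4 hy5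
        have h5 : s - 1 ∈ insert (y - 1) (S.erase y) := by
          rw [mem_insert, mem_erase]
          exact Or.inr ⟨by omega, hs1⟩
        exact (step S hS _ g1 h5 g3).trans (ih _ g1 (by omega))
      · -- replace the least element by `s - 1`
        have hne' : S.Nonempty := ⟨n, hS.2⟩
        set z := S.min' hne' with hz
        have hzS : z ∈ S := S.min'_mem hne'
        have hzy : z ≤ y := S.min'_le y hy1
        have hyl : y < n := lt_of_le_of_ne (Nat.lt_succ_iff.1 (hS.1.2.1 y hy1)) hy2
        have hzs := C0.ge hS hn hzS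
        have hzs' : z ≠ s - 1 := fun h => hs1 (h ▸ hzS)
        obtain ⟨g1, g2, g3⟩ := C0.replace hs hn hS hzS (by omega) le_rfl (by omega)
          (fun p hp hpz => absurd (S.min'_le p hp) (by rw [← hz]; omega))
        have h5 : s - 1 ∈ insert (s - 1) (S.erase z) := mem_insert_self _ _
        exact (step S hS _ g1 h5 g3).trans (ih _ g1 (by omega))
  refine conn_of (c := c) (hC c hc) ?_
  rintro T (hT1 | ⟨S, hS, h1, rfl⟩)
  · exact main _ T hT1 le_rfl
  · refine Relation.ReflTransGen.head ⟨hC S hS, ?_⟩ (main _ S hS le_rfl)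
    exact (adj_shift hS.2 (shift_lt hs hn hS) (shift_disj hs hn hS)).symm

lemma Fam.succ {S : Finset ℕ} (h : S ∈ Fam s n k) : S ∈ Fam s (n + 1) k := by
  obtain ⟨h1, h2, h3⟩ := h
  exact ⟨h1, fun x hx => (h2 x hx).trans (Nat.lt_succ_self n), fun x hx y hy hxy =>
    ⟨(h3 x hx y hy hxy).1, by have := (h3 x hx y hy hxy).2; omega⟩⟩

/-- every vertex of the graph for `n` has a neighbour in the new branch set -/
lemma dom (hs : 2 ≤ s) (hk : 1 ≤ k) (hn : s ≤ n) {X : Finset ℕ} (hX : X ∈ Fam s n k) :
    ∃ Y ∈ C0 s n k, disjGraph.Adj X Y := by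
  classical
  obtain ⟨hc, h1, h2⟩ := hX
  have hne : X.Nonempty := card_pos.1 (by omega)
  set a := X.min' hne with ha
  set b := X.max' hne with hb
  have haX : a ∈ X := X.min'_mem hne
  have hbX : b ∈ X := X.max'_mem hne
  have hal : ∀ x ∈ X, a ≤ x := fun x hx => X.min'_le x hx
  have hbl : ∀ x ∈ X, x ≤ b := fun x hx => X.le_max' x hx
  have hbn := h1 b hbX
  rcases le_or_gt (s - 1) a with hsa | hsa
  · -- move up by one, and replace the greatest element by `n`
    have hinj : Set.InjOn (fun x : ℕ => x + 1) ((X.erase b : Finset ℕ) : Set ℕ) := by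
      intro x _ y _ h
      simpa using h
    have hnot : n ∉ (X.erase b).image (fun x => x + 1) := by
      intro h
      rw [mem_image] at h
      obtain ⟨x, hx, hx'⟩ := h
      rw [mem_erase] at hx
      have := (h2 x hx.2 b hbX (lt_of_le_of_ne (hbl x hx.2) hx.1)).1
      omega
    refine ⟨insert n ((X.erase b).image (fun x => x + 1)), ⟨⟨?_, ?_, ?_⟩, mem_insert_self _ _⟩, ?_, ?_⟩
    · rw [card_insert_of_notMem hnot, card_image_of_injOn hinj, card_erase_of_mem hbX]
      omega
    · intro x hx
      rw [mem_insert, mem_image] at hx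
      rcases hx with rfl | ⟨y, hy, rfl⟩
      · exact Nat.lt_succ_self _
      · have := h1 y (mem_of_mem_erase hy)
        omega
    · intro x hx y hy hxy
      rw [mem_insert, mem_image] at hx hy
      rcases hx with rfl | ⟨x', hx', rfl⟩
      · rcases hy with rfl | ⟨y', hy', rfl⟩
        · omega
        · have := h1 y' (mem_of_mem_erase hy')
          omega
      · rw [mem_erase] at hx'
        rcases hy with rfl | ⟨y', hy', rfl⟩
        · have h3 := (h2 x' hx'.2 b hbX (lt_of_le_of_ne (hbl x' hx'.2) hx'.1)).1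
          have h4 := hal x' hx'.2
          omega
        · rw [mem_erase] at hy'
          have h3 := h2 x' hx'.2 y' hy'.2 (by omega)
          omega
    · intro h
      have : n ∈ X := h ▸ mem_insert_self _ _
      exact absurd (h1 n this) (lt_irrefl n)
    · rw [disjoint_left]
      intro x hx hx'
      rw [mem_insert, mem_image] at hx'
      rcases hx' with rfl | ⟨y, hy, rfl⟩
      · exact absurd (h1 x hx) (lt_irrefl x)
      · have := (h2 y (mem_of_mem_erase hy) (y + 1) hx (by omega)).1
        omega
  · -- move down by `a + 1`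
    have hinj : Set.InjOn (fun x : ℕ => x - (a + 1)) ((X.erase a : Finset ℕ) : Set ℕ) := by
      intro x hx y hy h
      rw [mem_coe, mem_erase] at hx hy
      have h3 := lt_of_le_of_ne (hal x hx.2) hx.1.symm
      have h4 := lt_of_le_of_ne (hal y hy.2) hy.1.symm
      simp only at h
      omega
    have hnot : n ∉ (X.erase a).image (fun x => x - (a + 1)) := by
      intro h
      rw [mem_image] at h
      obtain ⟨x, hx, hx'⟩ := h
      have := h1 x (mem_of_mem_erase hx)
      omega
    refine ⟨insert n ((X.erase a).image (fun x => x - (a + 1))), ⟨⟨?_, ?_, ?_⟩, mem_insert_self _ _⟩,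
      ?_, ?_⟩
    · rw [card_insert_of_notMem hnot, card_image_of_injOn hinj, card_erase_of_mem haX]
      omega
    · intro x hx
      rw [mem_insert, mem_image] at hx
      rcases hx with rfl | ⟨y, hy, rfl⟩
      · exact Nat.lt_succ_self _
      · have := h1 y (mem_of_mem_erase hy)
        omega
    · intro x hx y hy hxy
      rw [mem_insert, mem_image] at hx hy
      rcases hx with rfl | ⟨x', hx', rfl⟩
      · rcases hy with rfl | ⟨y', hy', rfl⟩
        · omega
        · have := h1 y' (mem_of_mem_erase hy')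
          omega
      · rw [mem_erase] at hx'
        have h3 := h2 a haX x' hx'.2 (lt_of_le_of_ne (hal x' hx'.2) hx'.1.symm)
        rcases hy with rfl | ⟨y', hy', rfl⟩
        · omega
        · rw [mem_erase] at hy'
          have h4 := h2 a haX y' hy'.2 (lt_of_le_of_ne (hal y' hy'.2) hy'.1.symm)
          have h5 := h2 x' hx'.2 y' hy'.2 (by omega)
          omega
    · intro h
      have : n ∈ X := h ▸ mem_insert_self _ _
      exact absurd (h1 n this) (lt_irrefl n)
    · rw [disjoint_left]
      intro x hx hx'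
      rw [mem_insert, mem_image] at hx'
      rcases hx' with rfl | ⟨y, hy, rfl⟩
      · exact absurd (h1 x hx) (lt_irrefl x)
      · rw [mem_erase] at hy
        have h3 := lt_of_le_of_ne (hal y hy.2) hy.1.symm
        have := (h2 (y - (a + 1)) hx y hy.2 (by omega)).1
        omega

/-- the new branch set lies outside of the graph for `n` -/
lemma EE_new (hs : 2 ≤ s) (hn : s ≤ n) {T : Finset ℕ} (hT : T ∈ EE s n k) :
    T ∈ Fam s (n + 1) k ∧ T ∉ Fam s n k := by
  classical
  rcases hT with hT | ⟨S, hS, h1, rfl⟩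
  · exact ⟨hT.1, fun h => absurd (h.2.1 n hT.2) (lt_irrefl n)⟩
  · have hge := fun x (hx : x ∈ S) => C0.ge hS hn hx
    obtain ⟨⟨hc, h2, h3⟩, h4⟩ := hS
    refine ⟨⟨?_, ?_, ?_⟩, ?_⟩
    · rw [card_image_of_injOn, hc]
      intro x hx y hy h
      have h5 := hge x hx
      have h6 := hge y hy
      simp only at h
      omega
    · intro x hx
      rw [mem_image] at hx
      obtain ⟨y, hy, rfl⟩ := hx
      have := h2 y hy
      omega
    · intro x hx y hy hxy
      rw [mem_image] at hx hy
      obtain ⟨x', hx', rfl⟩ := hx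
      obtain ⟨y', hy', rfl⟩ := hy
      have h5 := hge x' hx'
      have h6 := h3 x' hx' y' hy' (by omega)
      omega
    · intro h
      have h5 := (h.2.2 (s - 1 - 1) (mem_image.2 ⟨s - 1, h1, rfl⟩) (n - 1) (mem_image.2 ⟨n, h4, rfl⟩)
        (by omega)).2
      omega

theorem minor (hs : 2 ≤ s) (hk : 1 ≤ k) (d : ℕ) : MinorIn (Fam s (s * k + d) k) (s + d) := by
  classical
  induction d with
  | zero =>
    -- the classes modulo `s`
    have hinj : ∀ i : ℕ, Function.Injective (fun j : ℕ => i + s * j) := by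
      intro i x y h
      simp only at h
      have h1 : s * x = s * y := by omega
      exact Nat.eq_of_mul_eq_mul_left (by omega) h1
    have hmem : ∀ i < s, (range k).image (fun j => i + s * j) ∈ Fam s (s * k + 0) k := by
      intro i hi
      refine ⟨?_, ?_, ?_⟩
      · rw [card_image_of_injective _ (hinj i), card_range]
      · intro x hx
        rw [mem_image] at hx
        obtain ⟨j, hj, rfl⟩ := hx
        rw [mem_range] at hj
        have : s * (j + 1) ≤ s * k := Nat.mul_le_mul_left s hj
        rw [Nat.mul_add, Nat.mul_one] at this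
        omega
      · intro x hx y hy hxy
        rw [mem_image] at hx hy
        obtain ⟨j, hj, rfl⟩ := hx
        obtain ⟨j', hj', rfl⟩ := hy
        rw [mem_range] at hj hj'
        have hjj : j < j' := by
          by_contra h
          have : s * j' ≤ s * j := Nat.mul_le_mul_left s (not_lt.1 h)
          omega
        have h1 : s * (j + 1) ≤ s * j' := Nat.mul_le_mul_left s hjj
        have h2 : s * (j' + 1) ≤ s * k := Nat.mul_le_mul_left s hj'
        rw [Nat.mul_add, Nat.mul_one] at h1 h2
        omega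
    refine ⟨fun i => {(range k).image (fun j => i.val + s * j)}, fun i => ⟨?_, ?_⟩, fun i i' hii => ?_⟩
    · rw [Set.singleton_subset_iff]
      exact hmem i.1 i.2
    · exact conn_of (Set.mem_singleton _) (fun x hx => by
        rw [Set.mem_singleton_iff] at hx
        subst hx
        exact Relation.ReflTransGen.refl)
    · have hdis : Disjoint ((range k).image (fun j => i.val + s * j))
          ((range k).image (fun j => i'.val + s * j)) := by
        rw [disjoint_left]
        intro x hx hx'
        rw [mem_image] at hx hx'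
        obtain ⟨j, hj, rfl⟩ := hx
        obtain ⟨j', hj', h⟩ := hx'
        apply hii
        apply Fin.ext
        have h1 : (i'.val + s * j') % s = (i.val + s * j) % s := by rw [h]
        rw [Nat.add_mul_mod_self_left, Nat.add_mul_mod_self_left, Nat.mod_eq_of_lt (by simp),
          Nat.mod_eq_of_lt (by simp)] at h1
        exact h1.symm
      have hne : (range k).image (fun j => i.val + s * j) ≠ (range k).image (fun j => i'.val + s * j) := by
        intro h
        rw [h, disjoint_self] at hdis
        have h1 : i'.val + s * 0 ∈ (range k).image (fun j => i'.val + s * j) :=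
          mem_image.2 ⟨0, mem_range.2 (by omega), rfl⟩
        rw [hdis] at h1
        exact absurd h1 (notMem_empty _)
      refine ⟨?_, _, rfl, _, rfl, hne, hdis⟩
      rw [Set.disjoint_singleton]
      exact hne
  | succ d ih =>
    obtain ⟨B, h1, h2⟩ := ih
    set n := s * k + d with hn
    have hsn : s ≤ n := by
      have : s * 1 ≤ s * k := Nat.mul_le_mul_left s hk
      omega
    have hB : ∀ i, (B i).Nonempty := fun i => by
      obtain ⟨x⟩ := (h1 i).2.nonempty
      exact ⟨x.1, x.2⟩
    have hpos : 0 < s + d := by omega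
    obtain ⟨X, hX⟩ := hB ⟨0, hpos⟩
    obtain ⟨Y, hY, -⟩ := dom hs hk hsn ((h1 _).1 hX)
    have hconn := EE_conn hs hsn ⟨Y, hY⟩
    refine ⟨Fin.snoc (α := fun _ => Set (Finset ℕ)) B (EE s n k), ?_, ?_⟩
    · intro i
      refine Fin.lastCases ?_ (fun i => ?_) i
      · rw [Fin.snoc_last]
        exact ⟨fun T hT => (EE_new hs hsn hT).1, hconn⟩
      · rw [Fin.snoc_castSucc]
        exact ⟨fun T hT => Fam.succ ((h1 i).1 hT), (h1 i).2⟩
    · have key : ∀ i : Fin (s + d), Disjoint (B i) (EE s n k) ∧
          ∃ u ∈ B i, ∃ v ∈ EE s n k, disjGraph.Adj u v := by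
        intro i
        constructor
        · rw [Set.disjoint_left]
          intro T hT hT'
          exact (EE_new hs hsn hT').2 ((h1 i).1 hT)
        · obtain ⟨u, hu⟩ := hB i
          obtain ⟨v, hv, huv⟩ := dom hs hk hsn ((h1 i).1 hu)
          exact ⟨u, hu, v, Or.inl hv, huv⟩
      intro i j
      refine Fin.lastCases ?_ (fun i => ?_) i <;> refine Fin.lastCases ?_ (fun j => ?_) j
      · intro h
        exact absurd rfl h
      · intro _
        rw [Fin.snoc_last, Fin.snoc_castSucc]
        obtain ⟨g1, u, hu, v, hv, huv⟩ := key j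
        exact ⟨g1.symm, v, hv, u, hu, huv.symm⟩
      · intro _
        rw [Fin.snoc_last, Fin.snoc_castSucc]
        exact key i
      · intro hij
        rw [Fin.snoc_castSucc, Fin.snoc_castSucc]
        exact h2 i j (fun h => hij (by rw [h]))

end step

/-! ## The colouring -/

lemma spread_large {s : ℕ} : ∀ (k a : ℕ) (A : Finset ℕ), A.card = k + 1 → Spread s A → (∀ x ∈ A, a ≤ x) →
    ∃ x ∈ A, a + s * k ≤ x := by
  intro k
  induction k with
  | zero =>
    intro a A hA _ ha
    obtain ⟨x, hx⟩ : A.Nonempty := card_pos.1 (by omega)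
    exact ⟨x, hx, by simpa using ha x hx⟩
  | succ k ih =>
    intro a A hA hsp ha
    have hne : A.Nonempty := card_pos.1 (by omega)
    obtain ⟨x, hx, hx'⟩ := ih a (A.erase (A.max' hne)) (by rw [card_erase_of_mem (A.max'_mem hne)]; omega)
      (fun x hx y hy h => hsp x (mem_of_mem_erase hx) y (mem_of_mem_erase hy) h)
      (fun x hx => ha x (mem_of_mem_erase hx))
    have h1 := A.le_max' x (mem_of_mem_erase hx)
    have h2 := hsp x (mem_of_mem_erase hx) _ (A.max'_mem hne) (lt_of_le_of_ne h1 (ne_of_mem_erase hx))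
    refine ⟨A.max' hne, A.max'_mem hne, ?_⟩
    rw [Nat.mul_add, Nat.mul_one]
    omega

theorem colour {s n k : ℕ} (hs : 2 ≤ s) (hk : 1 ≤ k) (hn : s * k ≤ n) (F : Set (Finset ℕ))
    (hF : ∀ S ∈ F, (∀ x ∈ S, x < n) ∧ ((s = 2 ∧ k ≤ S.card) ∨ ∃ A ⊆ S, A.card = k ∧ Spread s A)) :
    (KG F).Colorable (n - s * (k - 1)) := by
  classical
  obtain ⟨j, rfl⟩ : ∃ j, k = j + 1 := ⟨k - 1, by omega⟩
  simp only [Nat.add_sub_cancel]
  rw [Nat.mul_add, Nat.mul_one] at hn
  set N := n - s * j with hN
  have hne : ∀ S ∈ F, S.Nonempty := by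
    intro S hS
    rcases (hF S hS).2 with ⟨-, h⟩ | ⟨A, hA, hc, -⟩
    · exact card_pos.1 (by omega)
    · exact (card_pos.1 (by omega)).mono hA
  have hcol : ∀ S : F, min (S.1.min' (hne S.1 S.2)) (N - 1) < N := fun S => by
    have := min_le_right (S.1.min' (hne S.1 S.2)) (N - 1)
    omega
  refine ⟨SimpleGraph.Coloring.mk (fun S => (⟨min (S.1.min' (hne S.1 S.2)) (N - 1), hcol S⟩ : Fin N)) ?_⟩
  rintro ⟨S, hS⟩ ⟨T, hT⟩ ⟨-, hadj⟩ heq
  change Disjoint S T at hadj
  rw [Fin.mk.injEq] at heq
  simp only at heq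
  have hSm := S.min'_mem (hne S hS)
  have hTm := T.min'_mem (hne T hT)
  rcases lt_or_ge (S.min' (hne S hS)) (N - 1) with h1 | h1
  · rw [min_eq_left h1.le] at heq
    have h2 : S.min' (hne S hS) = T.min' (hne T hT) := by
      rcases le_total (T.min' (hne T hT)) (N - 1) with h3 | h3
      · rwa [min_eq_left h3] at heq
      · rw [min_eq_right h3] at heq
        omega
    exact (disjoint_left.1 hadj) hSm (h2 ▸ hTm)
  · rw [min_eq_right h1] at heq
    have h2 : N - 1 ≤ T.min' (hne T hT) := by
      rw [heq]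
      exact min_le_left _ _
    have hSl : ∀ x ∈ S, N - 1 ≤ x := fun x hx => h1.trans (S.min'_le x hx)
    have hTl : ∀ x ∈ T, N - 1 ≤ x := fun x hx => h2.trans (T.min'_le x hx)
    -- a member of `F` all whose elements are at least `N - 1`
    have top : ∀ R ∈ F, (∀ x ∈ R, N - 1 ≤ x) → (∃ A ⊆ R, A.card = j + 1 ∧ Spread s A) → n - 1 ∈ R := by
      rintro R hR hRl ⟨A, hA, hc, hsp⟩
      obtain ⟨x, hx, hx'⟩ := spread_large j (N - 1) A hc hsp (fun x hx => hRl x (hA hx))
      have h3 := (hF R hR).1 x (hA hx)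
      have h4 : x = n - 1 := by omega
      exact h4 ▸ hA hx
    by_cases h2 : s = 2
    · subst h2
      -- two sets of at least `k` elements in an interval of length `2 k - 1`
      have big : ∀ R ∈ F, j + 1 ≤ R.card := by
        intro R hR
        rcases (hF R hR).2 with ⟨-, h⟩ | ⟨A, hA, hc, -⟩
        · exact h
        · rw [← hc]
          exact card_le_card hA
      have h3 : S ∪ T ⊆ Ico (N - 1) n := by
        intro x hx
        rw [mem_union] at hx
        rw [mem_Ico]
        rcases hx with hx | hx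
        · exact ⟨hSl x hx, (hF S hS).1 x hx⟩
        · exact ⟨hTl x hx, (hF T hT).1 x hx⟩
      have h4 := card_le_card h3
      rw [card_union_of_disjoint hadj, Nat.card_Ico] at h4
      have h5 := big S hS
      have h6 := big T hT
      omega
    · have aux : ∀ R ∈ F, ∃ A ⊆ R, A.card = j + 1 ∧ Spread s A := by
        intro R hR
        rcases (hF R hR).2 with ⟨h, -⟩ | h
        · exact absurd h h2
        · exact h
      exact (disjoint_left.1 hadj) (top S hS hSl (aux S hS)) (top T hT hTl (aux T hT))

/-- **Hadwiger's conjecture for stable Kneser graphs.**  Let `s ≥ 2`, `k ≥ 1`, `n ≥ s k`, and let `F` be a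
family of subsets of `{0, ..., n - 1}` which contains all the `k`-element sets that are `s`-stable on the
cycle, and each of whose members has a `k`-element subset that is `s`-stable on the line (or, if `s = 2`,
just at least `k` elements).  Then the Kneser graph of `F` has a colouring with `n - s (k - 1)` colours, and
the complete graph with `n - s (k - 1)` vertices is a minor of it.  So it satisfies Hadwiger's conjecture:
if there is no colouring with `t` colours, then the complete graph with `t + 1` vertices is a minor. -/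
theorem result (s n k : ℕ) (hs : 2 ≤ s) (hk : 1 ≤ k) (hn : s * k ≤ n) (F : Set (Finset ℕ))
    (h1 : ∀ S : Finset ℕ, S.card = k → Stable s n S → S ∈ F)
    (h2 : ∀ S ∈ F, (∀ x ∈ S, x < n) ∧ ((s = 2 ∧ k ≤ S.card) ∨ ∃ A ⊆ S, A.card = k ∧ Spread s A)) :
    (KG F).Colorable (n - s * (k - 1)) ∧ CliqueMinor (KG F) (n - s * (k - 1)) ∧
      ∀ t : ℕ, ¬ (KG F).Colorable t → CliqueMinor (KG F) (t + 1) := by
  have hcol := colour hs hk hn F h2
  have hmin : CliqueMinor (KG F) (n - s * (k - 1)) := by
    have h3 := minor (s := s) (k := k) hs hk (n - s * k)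
    rw [show s * k + (n - s * k) = n by omega] at h3
    have h4 : s + (n - s * k) = n - s * (k - 1) := by
      obtain ⟨j, rfl⟩ : ∃ j, k = j + 1 := ⟨k - 1, by omega⟩
      simp only [Nat.add_sub_cancel]
      rw [Nat.mul_add, Nat.mul_one] at hn ⊢
      omega
    rw [h4] at h3
    exact (h3.mono fun S hS => h1 S hS.1 hS.2).clique
  refine ⟨hcol, hmin, fun t ht => hmin.le ?_⟩
  by_contra h
  exact ht (hcol.mono (by omega))

end Pool.Agent.Results.MP_b47bfb_co.StableKneserGraphs
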